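import Pool.Agent.Lib.MP_c42713_prK.KForm

/-!
# The pointwise bound on the interaction matrix: abstract form
-/

namespace SKG

variable {n : ℕ}

private theorem KAbs_swap (M : Matrix (Fin n) (Fin n) ℝ) (hM : M.IsSymm) (w : Fin n → Fin n → ℝ)
    (hw : ∀ i j, w i j = w j i) (e : Fin n → ℝ) :
    ∑ i, ∑ j, M i j ^ 2 * (w i j * (e i + e j)) = ∑ i, (2 * ∑ j, M i j ^ 2 * w i j) * e i := by
  have h1 : ∑ i, ∑ j, M i j ^ 2 * (w i j * e j) = ∑ i, ∑ j, M i j ^ 2 * (w i j * e i) := by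
    rw [Finset.sum_comm]
    refine Finset.sum_congr rfl fun i _ => Finset.sum_congr rfl fun j _ => ?_
    rw [hM.apply i j, hw j i]
  calc ∑ i, ∑ j, M i j ^ 2 * (w i j * (e i + e j))
      = ∑ i, ∑ j, M i j ^ 2 * (w i j * e i) + ∑ i, ∑ j, M i j ^ 2 * (w i j * e j) := by
        rw [← Finset.sum_add_distrib]
        refine Finset.sum_congr rfl fun i _ => ?_
        rw [← Finset.sum_add_distrib]
        refine Finset.sum_congr rfl fun j _ => ?_
        ring
    _ = ∑ i, (2 * ∑ j, M i j ^ 2 * w i j) * e i := by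
        rw [h1, ← Finset.sum_add_distrib]
        refine Finset.sum_congr rfl fun i _ => ?_
        rw [← two_mul, mul_assoc, Finset.sum_mul]
        congr 1
        refine Finset.sum_congr rfl fun j _ => ?_
        ring

/-- the abstract pointwise inequality -/
theorem KAbs_main (M : Matrix (Fin n) (Fin n) ℝ) (hM : M.IsSymm) (s t δ : Fin n → ℝ)
    (hs0 : ∀ i, 0 ≤ s i) (hs1 : ∀ i, s i ≤ 1) (ht : ∀ i, t i ^ 2 = 1 - s i)
    (U : Finset (Fin n)) (κ : ℝ) (hκ0 : 0 < κ) (hκ1 : κ ≤ 1) (hκ : ∀ i, i ∉ U → s i ≤ κ ^ 2)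
    (L Λ c r : ℝ) (hL0 : 0 ≤ L) (hL : ∀ v : Fin n → ℝ, |KB M v v| ≤ L * ∑ i, v i ^ 2)
    (hΛ0 : 0 ≤ Λ) (hΛ : ∀ v : Fin n → ℝ, (∀ i, i ∉ U → v i = 0) → KB M v v ≤ Λ * ∑ i, v i ^ 2)
    (hcΛ : c ≤ Λ) (hc : ∀ j, 2 * ∑ k ∈ U, M j k ^ 2 ≤ c) (hr : ∀ j, ∑ k, M j k ^ 2 ≤ r) :
    KB M (fun i => s i * δ i) (fun i => s i * δ i) +
      ∑ i, ∑ j, 2 * M i j ^ 2 * (t i * t j * ((s i * δ i) * (s j * δ j))) ≤
      (Λ + 3 * κ * L + 2 * κ * r) * ∑ i, s i * δ i ^ 2 := by
  classical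
  set g : Fin n → ℝ := fun i => s i * δ i with hg
  set e : Fin n → ℝ := fun i => s i * δ i ^ 2 with he
  set E : ℝ := ∑ i, e i with hE
  have he0 : ∀ i, 0 ≤ e i := fun i => mul_nonneg (hs0 i) (sq_nonneg _)
  have hE0 : 0 ≤ E := Finset.sum_nonneg fun i _ => he0 i
  have hge : ∀ i, g i ^ 2 = s i * e i := by intro i; simp only [hg, he]; ring
  have hge1 : ∀ i, g i ^ 2 ≤ e i := by
    intro i
    rw [hge i]
    have := mul_le_mul_of_nonneg_right (hs1 i) (he0 i)
    rwa [one_mul] at this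
  -- first sum
  have hsplit : (fun i => rst U g i + rst Uᶜ g i) = g := by
    funext i
    unfold rst
    by_cases hi : i ∈ U
    · rw [if_pos hi, if_neg (by simp [hi]), add_zero]
    · rw [if_neg hi, if_pos (by simp [hi]), zero_add]
  have f1 := KB_add M hM (rst U g) (rst Uᶜ g)
  rw [hsplit] at f1
  have f2 : KB M (rst U g) (rst U g) ≤ Λ * ∑ i ∈ U, s i * e i := by
    have := hΛ (rst U g) (fun i hi => by unfold rst; rw [if_neg hi])
    rw [rst_sq] at this
    refine this.trans (le_of_eq ?_)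
    congr 1
    exact Finset.sum_congr rfl fun i _ => hge i
  have hUE : ∑ i, rst U g i ^ 2 ≤ E := by
    refine (rst_sq_le U g).trans ?_
    exact Finset.sum_le_sum fun i _ => hge1 i
  have hcE : ∑ i, rst Uᶜ g i ^ 2 ≤ κ ^ 2 * E := by
    rw [rst_sq, hE, Finset.mul_sum]
    calc ∑ i ∈ Uᶜ, g i ^ 2 ≤ ∑ i ∈ Uᶜ, κ ^ 2 * e i := by
          refine Finset.sum_le_sum fun i hi => ?_
          rw [hge i]
          exact mul_le_mul_of_nonneg_right (hκ i (Finset.mem_compl.1 hi)) (he0 i)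
      _ ≤ ∑ i, κ ^ 2 * e i := by
          refine Finset.sum_le_sum_of_subset_of_nonneg (Finset.subset_univ _) fun i _ _ => ?_
          exact mul_nonneg (sq_nonneg _) (he0 i)
  have f3 : 2 * KB M (rst U g) (rst Uᶜ g) ≤ L * (2 * κ * E) := by
    refine (KB_cross M hM L hL κ hκ0 _ _).trans (mul_le_mul_of_nonneg_left ?_ hL0)
    have h1 : (∑ i, rst Uᶜ g i ^ 2) / κ ≤ κ * E := by
      rw [div_le_iff₀ hκ0]
      refine hcE.trans (le_of_eq ?_)
      ring
    have h2 := mul_le_mul_of_nonneg_left hUE hκ0.le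
    linarith
  have f4 : KB M (rst Uᶜ g) (rst Uᶜ g) ≤ L * (κ * E) := by
    refine (abs_le.1 (hL _)).2.trans (mul_le_mul_of_nonneg_left ?_ hL0)
    refine hcE.trans (mul_le_mul_of_nonneg_right ?_ hE0)
    nlinarith
  -- second sum
  set b : Fin n → ℝ := fun i => (1 - s i) * (s i * e i) with hb
  have hb0 : ∀ i, 0 ≤ b i := fun i =>
    mul_nonneg (sub_nonneg.2 (hs1 i)) (mul_nonneg (hs0 i) (he0 i))
  have hbt : ∀ i, (t i * g i) ^ 2 = b i := by
    intro i
    rw [mul_pow, ht i, hge i]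
  have hbe : ∀ i, b i ≤ e i := by
    intro i
    rw [← hbt i, mul_pow, ht i]
    have h1 : (1 - s i) * g i ^ 2 ≤ 1 * g i ^ 2 :=
      mul_le_mul_of_nonneg_right (by linarith [hs0 i]) (sq_nonneg _)
    linarith [hge1 i]
  have hbc : ∀ i, i ∉ U → b i ≤ κ ^ 2 * e i := by
    intro i hi
    rw [← hbt i, mul_pow, ht i]
    have h1 : (1 - s i) * g i ^ 2 ≤ 1 * g i ^ 2 :=
      mul_le_mul_of_nonneg_right (by linarith [hs0 i]) (sq_nonneg _)
    have h2 : g i ^ 2 ≤ κ ^ 2 * e i := by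
      rw [hge i]
      exact mul_le_mul_of_nonneg_right (hκ i hi) (he0 i)
    linarith
  have hpair : ∀ i j, 2 * (t i * g i * (t j * g j)) ≤
      (if i ∈ U ∧ j ∈ U then b i + b j else 0) + κ * (e i + e j) := by
    intro i j
    have h1 : 2 * (t i * g i * (t j * g j)) ≤ b i + b j := by
      rw [← hbt i, ← hbt j]
      nlinarith [sq_nonneg (t i * g i - t j * g j)]
    have hκe : 0 ≤ κ * (e i + e j) := mul_nonneg hκ0.le (add_nonneg (he0 i) (he0 j))
    have hκκ : κ ^ 2 ≤ κ := by nlinarith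
    -- the cross inequality with a parameter
    have hcross : ∀ x y X Y : ℝ, x ^ 2 ≤ X → y ^ 2 ≤ κ ^ 2 * Y → 2 * (x * y) ≤ κ * (X + Y) := by
      intro x y X Y hx hy
      have k1 : 2 * (x * y) ≤ κ * x ^ 2 + y ^ 2 / κ := by
        have k2 : 0 ≤ (κ * x - y) ^ 2 / κ := by positivity
        have k3 : (κ * x - y) ^ 2 / κ = κ * x ^ 2 - 2 * (x * y) + y ^ 2 / κ := by
          field_simp
          ring
        linarith
      have k4 : y ^ 2 / κ ≤ κ * Y := by
        rw [div_le_iff₀ hκ0]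
        refine hy.trans (le_of_eq ?_)
        ring
      have k5 := mul_le_mul_of_nonneg_left hx hκ0.le
      linarith
    by_cases hi : i ∈ U
    · by_cases hj : j ∈ U
      · rw [if_pos ⟨hi, hj⟩]
        linarith
      · rw [if_neg (fun h => hj h.2), zero_add]
        exact hcross _ _ _ _ (by rw [hbt i]; exact hbe i) (by rw [hbt j]; exact hbc j hj)
    · rw [if_neg (fun h => hi h.1), zero_add]
      have := hcross (t j * g j) (t i * g i) (e j) (e i) (by rw [hbt j]; exact hbe j)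
        (by rw [hbt i]; exact hbc i hi)
      have h2 : t j * g j * (t i * g i) = t i * g i * (t j * g j) := by ring
      rw [h2] at this
      linarith
  have f5 : ∑ i, ∑ j, 2 * M i j ^ 2 * (t i * t j * ((s i * δ i) * (s j * δ j))) ≤
      ∑ i, ∑ j, M i j ^ 2 * ((if i ∈ U ∧ j ∈ U then (1 : ℝ) else 0) * (b i + b j)) +
      ∑ i, ∑ j, M i j ^ 2 * (κ * (e i + e j)) := by
    rw [← Finset.sum_add_distrib]
    refine Finset.sum_le_sum fun i _ => ?_
    rw [← Finset.sum_add_distrib]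
    refine Finset.sum_le_sum fun j _ => ?_
    have h1 := mul_le_mul_of_nonneg_left (hpair i j) (sq_nonneg (M i j))
    have h2 : 2 * M i j ^ 2 * (t i * t j * ((s i * δ i) * (s j * δ j))) =
        M i j ^ 2 * (2 * (t i * g i * (t j * g j))) := by
      simp only [hg]; ring
    rw [h2]
    refine h1.trans (le_of_eq ?_)
    split_ifs <;> ring
  have f6 : ∑ i, ∑ j, M i j ^ 2 * ((if i ∈ U ∧ j ∈ U then (1 : ℝ) else 0) * (b i + b j)) ≤
      c * ∑ i ∈ U, b i := by
    rw [KAbs_swap M hM (fun i j => if i ∈ U ∧ j ∈ U then (1 : ℝ) else 0)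
      (fun i j => by simp only [and_comm]) b]
    have h1 : ∀ i, (2 * ∑ j, M i j ^ 2 * (if i ∈ U ∧ j ∈ U then (1 : ℝ) else 0)) * b i =
        if i ∈ U then (2 * ∑ j ∈ U, M i j ^ 2) * b i else 0 := by
      intro i
      by_cases hi : i ∈ U
      · rw [if_pos hi]
        congr 2
        have h2 : ∀ j, M i j ^ 2 * (if i ∈ U ∧ j ∈ U then (1 : ℝ) else 0) =
            if j ∈ U then M i j ^ 2 else 0 := by
          intro j
          by_cases hj : j ∈ U
          · rw [if_pos ⟨hi, hj⟩, if_pos hj, mul_one]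
          · rw [if_neg (fun h => hj h.2), if_neg hj, mul_zero]
        rw [Finset.sum_congr rfl fun j _ => h2 j, Finset.sum_ite_mem, Finset.univ_inter]
      · rw [if_neg hi]
        have h2 : ∀ j, M i j ^ 2 * (if i ∈ U ∧ j ∈ U then (1 : ℝ) else 0) = 0 := by
          intro j
          rw [if_neg (fun h => hi h.1), mul_zero]
        rw [Finset.sum_congr rfl fun j _ => h2 j]
        simp
    rw [Finset.sum_congr rfl fun i _ => h1 i, Finset.sum_ite_mem, Finset.univ_inter, Finset.mul_sum]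
    exact Finset.sum_le_sum fun i _ => mul_le_mul_of_nonneg_right (hc i) (hb0 i)
  have f7 : ∑ i, ∑ j, M i j ^ 2 * (κ * (e i + e j)) ≤ 2 * κ * r * E := by
    have h0 := KAbs_swap M hM (fun _ _ => κ) (fun _ _ => rfl) e
    rw [h0, hE, Finset.mul_sum]
    refine Finset.sum_le_sum fun i _ => mul_le_mul_of_nonneg_right ?_ (he0 i)
    rw [← Finset.sum_mul]
    have := mul_le_mul_of_nonneg_right (hr i) hκ0.le
    linarith
  have f8 : c * ∑ i ∈ U, b i ≤ Λ * ∑ i ∈ U, b i :=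
    mul_le_mul_of_nonneg_right hcΛ (Finset.sum_nonneg fun i _ => hb0 i)
  have f9 : Λ * ∑ i ∈ U, s i * e i + Λ * ∑ i ∈ U, b i ≤ Λ * E := by
    rw [← mul_add, ← Finset.sum_add_distrib]
    apply mul_le_mul_of_nonneg_left _ hΛ0
    calc ∑ i ∈ U, (s i * e i + b i) ≤ ∑ i ∈ U, e i := by
          refine Finset.sum_le_sum fun i _ => ?_
          have h1 : s i * e i + b i = e i - (1 - s i) ^ 2 * e i := by
            simp only [hb]; ring
          rw [h1]
          have := mul_nonneg (sq_nonneg (1 - s i)) (he0 i)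
          linarith
      _ ≤ E := Finset.sum_le_sum_of_subset_of_nonneg (Finset.subset_univ _) fun i _ _ => he0 i
  have hfin : (Λ + 3 * κ * L + 2 * κ * r) * E = Λ * E + L * (2 * κ * E) + L * (κ * E) +
      2 * κ * r * E := by ring
  rw [hfin]
  linarith

end SKG
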