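import Pool.Agent.Lib.MP_c42713_pr.RChern

/-!
# Chernoff bound, uniformly over all small sets of additional coordinates
-/

namespace SKG

open MeasureTheory ProbabilityTheory Filter Topology

/-- the family of the subsets of `Fin n` with at most `θ n` elements -/
noncomputable def smallSets (n : ℕ) (θ : ℝ) : Finset (Finset (Fin n)) :=
  Finset.univ.filter (fun T : Finset (Fin n) => (T.card : ℝ) ≤ θ * n)

theorem mem_smallSets {n : ℕ} {θ : ℝ} {T : Finset (Fin n)} :
    T ∈ smallSets n θ ↔ (T.card : ℝ) ≤ θ * n := by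
  unfold smallSets
  simp

/-- there are at most `exp (η n)` small sets -/
theorem card_smallSets (n : ℕ) (η θ : ℝ) (hη : 0 < η) (hη1 : η ≤ 1) (hθ0 : 0 ≤ θ)
    (hθ : θ ≤ η ^ 2 / 4) : ((smallSets n θ).card : ℝ) ≤ Real.exp (η * n) := by
  set s : ℝ := η / 2 with hs
  have hs0 : 0 < s := by rw [hs]; linarith
  have hn : (0 : ℝ) ≤ n := Nat.cast_nonneg n
  have h1 : ∀ T ∈ smallSets n θ, (1 : ℝ) ≤ Real.exp (θ * n / s) * s ^ T.card := by
    intro T hT
    rw [mem_smallSets] at hT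
    have hlog : -(1 / s) ≤ Real.log s := by
      have := Real.one_sub_inv_le_log_of_pos hs0
      rw [one_div]
      linarith
    have e1 : s ^ T.card = Real.exp (T.card * Real.log s) := by
      rw [Real.exp_nat_mul, Real.exp_log hs0]
    rw [e1, ← Real.exp_add]
    apply Real.one_le_exp
    have h2 : (T.card : ℝ) * (-(1 / s)) ≤ T.card * Real.log s :=
      mul_le_mul_of_nonneg_left hlog (Nat.cast_nonneg _)
    have h3 : (T.card : ℝ) * (1 / s) ≤ θ * n * (1 / s) :=
      mul_le_mul_of_nonneg_right hT (by positivity)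
    have h4 : θ * n / s = θ * n * (1 / s) := by ring
    rw [h4]
    linarith
  have h2 : ((smallSets n θ).card : ℝ) ≤ ∑ T ∈ smallSets n θ, Real.exp (θ * n / s) * s ^ T.card := by
    have := Finset.sum_le_sum h1
    simpa using this
  have h3 : ∑ T ∈ smallSets n θ, Real.exp (θ * n / s) * s ^ T.card ≤
      ∑ T : Finset (Fin n), Real.exp (θ * n / s) * s ^ T.card := by
    refine Finset.sum_le_sum_of_subset_of_nonneg (Finset.subset_univ _) fun T _ _ => ?_
    positivity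
  have h4 : ∑ T : Finset (Fin n), s ^ T.card = (1 + s) ^ n := by
    have := Finset.prod_one_add (s := (Finset.univ : Finset (Fin n))) (f := fun _ => s)
    simp only [Finset.prod_const, Finset.card_univ, Fintype.card_fin, Finset.powerset_univ] at this
    exact this.symm
  have h5 : (1 + s) ^ n ≤ Real.exp (s * n) := by
    rw [mul_comm, Real.exp_nat_mul]
    refine pow_le_pow_left₀ (by linarith) ?_ n
    have := Real.add_one_le_exp s
    linarith
  calc ((smallSets n θ).card : ℝ) ≤ ∑ T : Finset (Fin n), Real.exp (θ * n / s) * s ^ T.card :=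
        h2.trans h3
    _ = Real.exp (θ * n / s) * (1 + s) ^ n := by rw [← Finset.mul_sum, h4]
    _ ≤ Real.exp (θ * n / s) * Real.exp (s * n) :=
        mul_le_mul_of_nonneg_left h5 (Real.exp_pos _).le
    _ = Real.exp ((θ / s + s) * n) := by
        rw [← Real.exp_add]
        congr 1
        ring
    _ ≤ Real.exp (η * n) := by
        apply Real.exp_le_exp.mpr
        apply mul_le_mul_of_nonneg_right _ hn
        have : θ / s ≤ η / 2 := by
          rw [div_le_iff₀ hs0, hs]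
          nlinarith
        rw [hs] at this ⊢
        linarith

/-- the parameter `λ` of the Chernoff bound -/
noncomputable def kl (ε : ℝ) : ℝ := min (1 / 8) (ε / 32)

theorem kl_pos {ε : ℝ} (hε : 0 < ε) : 0 < kl ε := by
  unfold kl
  exact lt_min (by norm_num) (by linarith)

theorem kl_le {ε : ℝ} : kl ε ≤ 1 / 8 := min_le_left _ _

theorem kl_le' {ε : ℝ} : kl ε ≤ ε / 32 := min_le_right _ _

/-- one set -/
theorem KCh_one {n : ℕ} (e : Fin n → Fin n × Fin n) (he : Function.Injective e) (d : Fin n → ℝ)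
    (hd0 : ∀ k, 0 ≤ d k) (hd2 : ∀ k, d k ≤ 2) (U : Finset (Fin n)) (a ε θ : ℝ)
    (ha1 : a ≤ 1) (hε : 0 < ε) (hθ1 : θ ≤ 1) (hθε : θ ≤ ε / 4)
    (hU : ∑ k ∈ U, d k ≤ (a + θ) * n + 1) :
    stdG (Fin n × Fin n) {g | (a + ε) * n ≤ ∑ k ∈ U, d k * g (e k) ^ 2} ≤
      ENNReal.ofReal (Real.exp (1 - kl ε * ε / 2 * n)) := by
  classical
  set c : Fin n × Fin n → ℝ := fun p => ∑ k ∈ U, if e k = p then d k else 0 with hc
  have hce : ∀ p, c p = ∑ k ∈ U, if e k = p then d k else 0 := fun p => rfl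
  have hsum : ∀ F : Fin n × Fin n → ℝ, ∑ p, c p * F p = ∑ k ∈ U, d k * F (e k) := by
    intro F
    have h1 : ∀ p, c p * F p = ∑ k ∈ U, (if e k = p then d k * F p else 0) := by
      intro p
      rw [hce, Finset.sum_mul]
      refine Finset.sum_congr rfl fun k _ => ?_
      split_ifs <;> ring
    rw [Finset.sum_congr rfl fun p _ => h1 p, Finset.sum_comm]
    refine Finset.sum_congr rfl fun k _ => ?_
    rw [Finset.sum_ite_eq Finset.univ (e k), if_pos (Finset.mem_univ _)]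
  have hval : ∀ k ∈ U, c (e k) = d k := by
    intro k hk
    rw [hce, Finset.sum_eq_single_of_mem k hk, if_pos rfl]
    intro b _ hb
    rw [if_neg fun h => hb (he h)]
  have hc0 : ∀ p, 0 ≤ c p := by
    intro p
    rw [hce]
    exact Finset.sum_nonneg fun k _ => by
      split_ifs
      · exact hd0 k
      · exact le_rfl
  have hc2 : ∀ p, c p ≤ 2 := by
    intro p
    by_cases hp : ∃ k ∈ U, e k = p
    · obtain ⟨k, hk, rfl⟩ := hp
      rw [hval k hk]
      exact hd2 k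
    · have : c p = 0 := by
        rw [hce]
        refine Finset.sum_eq_zero fun k hk => ?_
        rw [if_neg fun h => hp ⟨k, hk, h⟩]
      rw [this]
      norm_num
  have hs1 : ∑ p, c p = ∑ k ∈ U, d k := by
    have := hsum (fun _ => 1)
    simpa using this
  have hs2 : ∑ p, c p ^ 2 ≤ 2 * ∑ k ∈ U, d k := by
    rw [← hs1, Finset.mul_sum]
    refine Finset.sum_le_sum fun p _ => ?_
    nlinarith [hc0 p, hc2 p]
  have hl0 := kl_pos hε
  have hl8 : kl ε ≤ 1 / 8 := kl_le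
  have hl32 : kl ε ≤ ε / 32 := kl_le'
  have h1 := chern_up c hc0 hc2 (kl ε) hl0.le hl8 ((a + ε) * n)
  have h2 : {g : Fin n × Fin n → ℝ | (a + ε) * n ≤ ∑ k ∈ U, d k * g (e k) ^ 2} =
      {g | (a + ε) * n ≤ ∑ p, c p * g p ^ 2} := by
    ext g
    simp only [Set.mem_ofPred_eq]
    rw [hsum (fun p => g p ^ 2)]
  rw [h2]
  refine h1.trans (ENNReal.ofReal_le_ofReal (Real.exp_le_exp.mpr ?_))
  have hn : (0 : ℝ) ≤ n := Nat.cast_nonneg n
  rw [hs1]
  set D : ℝ := ∑ k ∈ U, d k with hD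
  have hD0 : 0 ≤ D := Finset.sum_nonneg fun k _ => hd0 k
  set l : ℝ := kl ε with hl
  have h3 : 2 * l ^ 2 * ∑ p, c p ^ 2 ≤ 2 * l ^ 2 * (2 * D) :=
    mul_le_mul_of_nonneg_left hs2 (by positivity)
  have h4 : l * D + 2 * l ^ 2 * (2 * D) = (l + 4 * l ^ 2) * D := by ring
  have h5 : (l + 4 * l ^ 2) * D ≤ (l + 4 * l ^ 2) * ((a + θ) * n + 1) :=
    mul_le_mul_of_nonneg_left hU (by positivity)
  have h6 : (l + 4 * l ^ 2) * 1 ≤ 1 := by nlinarith
  have h7 : l * ((4 * l * (a + θ)) * n) ≤ l * (ε / 4 * n) := by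
    apply mul_le_mul_of_nonneg_left _ hl0.le
    apply mul_le_mul_of_nonneg_right _ hn
    have : a + θ ≤ 2 := by linarith
    nlinarith
  have h8 : l * (θ * n) ≤ l * (ε / 4 * n) := by
    apply mul_le_mul_of_nonneg_left _ hl0.le
    exact mul_le_mul_of_nonneg_right hθε hn
  have h9 : (l + 4 * l ^ 2) * ((a + θ) * n + 1) = l * (a * n) + l * (θ * n) +
      l * ((4 * l * (a + θ)) * n) + (l + 4 * l ^ 2) * 1 := by ring
  have h10 : -(l * ((a + ε) * n)) = -(l * (a * n)) - l * (ε * n) := by ring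
  have h11 : l * ε / 2 * n = l * (ε * n) - l * (ε / 4 * n) - l * (ε / 4 * n) := by ring
  rw [h10, h11]
  linarith

/-- all small sets -/
theorem KCh_all {n : ℕ} (S : Finset (Fin n)) (e : Fin n → Fin n × Fin n)
    (he : Function.Injective e) (d : Fin n → ℝ)
    (hd0 : ∀ k, 0 ≤ d k) (hd2 : ∀ k, d k ≤ 2) (hd : ∀ U : Finset (Fin n), ∑ k ∈ U, d k ≤ U.card + 1)
    (a ε θ : ℝ) (ha1 : a ≤ 1) (hε : 0 < ε) (hε1 : ε ≤ 1) (hS : (S.card : ℝ) ≤ a * n)
    (hθ0 : 0 ≤ θ) (hθ : θ ≤ (kl ε * ε / 4) ^ 2 / 4) :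
    stdG (Fin n × Fin n) {g | ∃ T ∈ smallSets n θ, (a + ε) * n ≤ ∑ k ∈ S ∪ T, d k * g (e k) ^ 2} ≤
      ENNReal.ofReal (Real.exp (1 - kl ε * ε / 4 * n)) := by
  classical
  have hl0 := kl_pos hε
  have hl8 : kl ε ≤ 1 / 8 := kl_le
  have hη0 : 0 < kl ε * ε / 4 := by positivity
  have hη1 : kl ε * ε / 4 ≤ ε / 32 := by nlinarith
  have hθ1 : θ ≤ ε / 4 := by nlinarith
  have hcount := card_smallSets n (kl ε * ε / 4) θ hη0 (by linarith) hθ0 hθ
  have hone : ∀ T ∈ smallSets n θ,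
      stdG (Fin n × Fin n) {g | (a + ε) * n ≤ ∑ k ∈ S ∪ T, d k * g (e k) ^ 2} ≤
      ENNReal.ofReal (Real.exp (1 - kl ε * ε / 2 * n)) := by
    intro T hT
    rw [mem_smallSets] at hT
    refine KCh_one e he d hd0 hd2 (S ∪ T) a ε θ ha1 hε (by linarith) hθ1 ?_
    refine (hd (S ∪ T)).trans ?_
    have h1 : ((S ∪ T).card : ℝ) ≤ S.card + T.card := by
      exact_mod_cast Finset.card_union_le S T
    nlinarith
  have hset : {g : Fin n × Fin n → ℝ |
      ∃ T ∈ smallSets n θ, (a + ε) * n ≤ ∑ k ∈ S ∪ T, d k * g (e k) ^ 2} =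
      ⋃ T ∈ smallSets n θ, {g | (a + ε) * n ≤ ∑ k ∈ S ∪ T, d k * g (e k) ^ 2} := by
    ext g
    simp
  rw [hset]
  calc stdG (Fin n × Fin n)
        (⋃ T ∈ smallSets n θ, {g | (a + ε) * n ≤ ∑ k ∈ S ∪ T, d k * g (e k) ^ 2})
      ≤ ∑ T ∈ smallSets n θ,
        stdG (Fin n × Fin n) {g | (a + ε) * n ≤ ∑ k ∈ S ∪ T, d k * g (e k) ^ 2} :=
        measure_biUnion_finset_le _ _
    _ ≤ ∑ T ∈ smallSets n θ, ENNReal.ofReal (Real.exp (1 - kl ε * ε / 2 * n)) :=
        Finset.sum_le_sum hone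
    _ = ENNReal.ofReal ((smallSets n θ).card * Real.exp (1 - kl ε * ε / 2 * n)) := by
        rw [Finset.sum_const, nsmul_eq_mul, ENNReal.ofReal_mul (Nat.cast_nonneg _),
          ENNReal.ofReal_natCast]
    _ ≤ ENNReal.ofReal (Real.exp (kl ε * ε / 4 * n) * Real.exp (1 - kl ε * ε / 2 * n)) := by
        apply ENNReal.ofReal_le_ofReal
        exact mul_le_mul_of_nonneg_right hcount (Real.exp_pos _).le
    _ = ENNReal.ofReal (Real.exp (1 - kl ε * ε / 4 * n)) := by
        rw [← Real.exp_add]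
        congr 2
        ring

end SKG
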