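import Pool.Agent.Lib.MP_c42713_prK.KPair

/-!
# The second order inequality from a pointwise bound on the interaction matrix
-/

namespace SKG

variable {n : ℕ}

private theorem KSum_swap (J : Matrix (Fin n) (Fin n) ℝ) (hs : J.IsSymm) (e : Fin n → ℝ) :
    ∑ i, ∑ j ∈ Finset.univ.erase i, J i j ^ 2 * (e i + e j) =
      ∑ i, (2 * ∑ j ∈ Finset.univ.erase i, J i j ^ 2) * e i := by
  have h1 : ∑ i, ∑ j ∈ Finset.univ.erase i, J i j ^ 2 * e j =
      ∑ i, ∑ j ∈ Finset.univ.erase i, J i j ^ 2 * e i := by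
    rw [Finset.sum_comm' (s := Finset.univ) (t := fun i => Finset.univ.erase i)
      (t' := Finset.univ) (s' := fun j => Finset.univ.erase j)]
    · refine Finset.sum_congr rfl fun i _ => Finset.sum_congr rfl fun j _ => ?_
      rw [hs.apply i j]
    · intro i j
      simp only [Finset.mem_erase, Finset.mem_univ, and_true, true_and, ne_eq]
      exact ⟨fun h h' => h h'.symm, fun h h' => h h'.symm⟩
  calc ∑ i, ∑ j ∈ Finset.univ.erase i, J i j ^ 2 * (e i + e j)
      = ∑ i, ∑ j ∈ Finset.univ.erase i, J i j ^ 2 * e i +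
        ∑ i, ∑ j ∈ Finset.univ.erase i, J i j ^ 2 * e j := by
        rw [← Finset.sum_add_distrib]
        refine Finset.sum_congr rfl fun i _ => ?_
        rw [← Finset.sum_add_distrib]
        refine Finset.sum_congr rfl fun j _ => ?_
        ring
    _ = ∑ i, (2 * ∑ j ∈ Finset.univ.erase i, J i j ^ 2) * e i := by
        rw [h1, ← Finset.sum_add_distrib]
        refine Finset.sum_congr rfl fun i _ => ?_
        rw [← Finset.sum_mul]
        ring

theorem KSum_swap_le (J : Matrix (Fin n) (Fin n) ℝ) (hs : J.IsSymm) (e : Fin n → ℝ) (r : ℝ)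
    (he : ∀ i, 0 ≤ e i) (hrow : ∀ i, ∑ j ∈ Finset.univ.erase i, J i j ^ 2 ≤ r) :
    ∑ i, ∑ j ∈ Finset.univ.erase i, J i j ^ 2 * (e i + e j) ≤ 2 * r * ∑ i, e i := by
  rw [KSum_swap J hs e, Finset.mul_sum]
  refine Finset.sum_le_sum fun i _ => mul_le_mul_of_nonneg_right ?_ (he i)
  linarith [hrow i]

theorem KSum_sc (J : Matrix (Fin n) (Fin n) ℝ) (h : Fin n → ℝ) (i : Fin n) (x : Conf n) :
    0 ≤ sc J h i x ∧ sc J h i x ≤ 1 := by
  unfold sc th
  have h1 := Real.tanh_lt_one (lfd J h i x)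
  have h2 := Real.neg_one_lt_tanh (lfd J h i x)
  constructor
  · nlinarith
  · nlinarith [sq_nonneg (Real.tanh (lfd J h i x))]

/-- **second order inequality.** If, at every configuration, the quadratic form with matrix
`J i j (1 + 2 J i j t i t j)` in the variables `s i δ i` is at most `Λ ∑ s i (δ i)^2`, then the
Bochner inequality holds with constant `1 - Λ - 80 r m`. -/
theorem gammaK (J : Matrix (Fin n) (Fin n) ℝ) (hs : J.IsSymm) (h : Fin n → ℝ) (Λ m r : ℝ)
    (hm0 : 0 ≤ m) (hm : m ≤ 1 / 20) (hJ : ∀ i j, i ≠ j → |J i j| ≤ m)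
    (hrow : ∀ i, ∑ j ∈ Finset.univ.erase i, J i j ^ 2 ≤ r)
    (hpt : ∀ (x : Conf n) (δ : Fin n → ℝ), ∑ i, ∑ j ∈ Finset.univ.erase i,
      (J i j * ((sc J h i x * δ i) * (sc J h j x * δ j)) +
        2 * J i j ^ 2 * (th J h i x * th J h j x * ((sc J h i x * δ i) * (sc J h j x * δ j)))) ≤
      Λ * ∑ i, sc J h i x * δ i ^ 2)
    (f : Conf n → ℝ) :
    (1 - Λ - 80 * r * m) * ∑ i, FS (gibbs J h) {i} f ≤
      ∑ x, gibbs J h x * (∑ i, (f x - cE (gibbs J h) {i} f x)) ^ 2 := by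
  have hμ : ∀ x, 0 ≤ gibbs J h x := fun x => (gibbs_pos J h x).le
  set d : Fin n → Conf n → ℝ := fun i x => f x - cE (gibbs J h) {i} f x with hd
  set R : Conf n → Fin n → Fin n → ℝ := fun x i j =>
    (J i j * ((sc J h i x * Dd f i x) * (sc J h j x * Dd f j x)) +
      2 * J i j ^ 2 * (th J h i x * th J h j x *
        ((sc J h i x * Dd f i x) * (sc J h j x * Dd f j x)))) +
      40 * |J i j| ^ 3 * (sc J h i x * Dd f i x ^ 2 + sc J h j x * Dd f j x ^ 2) with hR
  -- sum of the pair inequalities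
  have h1 : 0 ≤ ∑ i, ∑ j ∈ Finset.univ.erase i, ∑ x, gibbs J h x * (d i x * d j x + R x i j) := by
    refine Finset.sum_nonneg fun i _ => Finset.sum_nonneg fun j hj => ?_
    have hij : i ≠ j := fun h' => (Finset.ne_of_mem_erase hj) h'.symm
    refine le_trans (pair_ineqK J hs h i j hij (le_trans (hJ i j hij) hm) f) (le_of_eq ?_)
    refine Finset.sum_congr rfl fun x _ => ?_
    simp only [hd, hR]
    ring
  have h2 : ∑ i, ∑ j ∈ Finset.univ.erase i, ∑ x, gibbs J h x * (d i x * d j x + R x i j) =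
      ∑ x, gibbs J h x * (∑ i, ∑ j ∈ Finset.univ.erase i, d i x * d j x) +
        ∑ x, gibbs J h x * (∑ i, ∑ j ∈ Finset.univ.erase i, R x i j) := by
    rw [← Finset.sum_add_distrib]
    have e1 : ∀ i, ∑ j ∈ Finset.univ.erase i, ∑ x, gibbs J h x * (d i x * d j x + R x i j) =
        ∑ x, ∑ j ∈ Finset.univ.erase i, gibbs J h x * (d i x * d j x + R x i j) :=
      fun i => Finset.sum_comm
    rw [Finset.sum_congr rfl fun i _ => e1 i, Finset.sum_comm]
    refine Finset.sum_congr rfl fun x _ => ?_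
    rw [← mul_add, ← Finset.sum_add_distrib, Finset.mul_sum]
    refine Finset.sum_congr rfl fun i _ => ?_
    rw [← Finset.sum_add_distrib, Finset.mul_sum]
  have h3 : ∑ x, gibbs J h x * (∑ i, ∑ j ∈ Finset.univ.erase i, R x i j) ≤
      ∑ x, gibbs J h x * ((Λ + 80 * r * m) * ∑ i, sc J h i x * Dd f i x ^ 2) := by
    refine Finset.sum_le_sum fun x _ => mul_le_mul_of_nonneg_left ?_ (hμ x)
    have a1 := hpt x (fun i => Dd f i x)
    have a3' : ∑ i, ∑ j ∈ Finset.univ.erase i,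
        J i j ^ 2 * (sc J h i x * Dd f i x ^ 2 + sc J h j x * Dd f j x ^ 2) ≤
        2 * r * ∑ i, sc J h i x * Dd f i x ^ 2 :=
      KSum_swap_le J hs (fun i => sc J h i x * Dd f i x ^ 2) r
        (fun i => mul_nonneg (KSum_sc J h i x).1 (sq_nonneg _)) hrow
    have a3 : ∑ i, ∑ j ∈ Finset.univ.erase i,
        40 * |J i j| ^ 3 * (sc J h i x * Dd f i x ^ 2 + sc J h j x * Dd f j x ^ 2) ≤
        40 * m * (2 * r * ∑ i, sc J h i x * Dd f i x ^ 2) := by
      refine le_trans ?_ (mul_le_mul_of_nonneg_left a3' (by positivity))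
      rw [Finset.mul_sum]
      refine Finset.sum_le_sum fun i _ => ?_
      rw [Finset.mul_sum]
      refine Finset.sum_le_sum fun j hj => ?_
      have hij : i ≠ j := fun h => (Finset.ne_of_mem_erase hj) h.symm
      have hc : |J i j| ^ 3 ≤ m * J i j ^ 2 := by
        rw [pow_succ' |J i j| 2, sq_abs]
        exact mul_le_mul_of_nonneg_right (hJ i j hij) (sq_nonneg _)
      have hp : 0 ≤ sc J h i x * Dd f i x ^ 2 + sc J h j x * Dd f j x ^ 2 :=
        add_nonneg (mul_nonneg (KSum_sc J h i x).1 (sq_nonneg _))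
          (mul_nonneg (KSum_sc J h j x).1 (sq_nonneg _))
      calc 40 * |J i j| ^ 3 * (sc J h i x * Dd f i x ^ 2 + sc J h j x * Dd f j x ^ 2)
          ≤ 40 * (m * J i j ^ 2) * (sc J h i x * Dd f i x ^ 2 + sc J h j x * Dd f j x ^ 2) :=
            mul_le_mul_of_nonneg_right (by linarith) hp
        _ = 40 * m * (J i j ^ 2 * (sc J h i x * Dd f i x ^ 2 + sc J h j x * Dd f j x ^ 2)) := by
            ring
    have a6 : ∑ i, ∑ j ∈ Finset.univ.erase i, R x i j =
        ∑ i, ∑ j ∈ Finset.univ.erase i,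
          (J i j * ((sc J h i x * Dd f i x) * (sc J h j x * Dd f j x)) +
          2 * J i j ^ 2 * (th J h i x * th J h j x *
            ((sc J h i x * Dd f i x) * (sc J h j x * Dd f j x)))) +
        ∑ i, ∑ j ∈ Finset.univ.erase i,
          40 * |J i j| ^ 3 * (sc J h i x * Dd f i x ^ 2 + sc J h j x * Dd f j x ^ 2) := by
      rw [← Finset.sum_add_distrib]
      refine Finset.sum_congr rfl fun i _ => ?_
      rw [← Finset.sum_add_distrib]
    rw [a6]
    linarith
  have h4 : ∑ x, gibbs J h x * ((Λ + 80 * r * m) * ∑ i, sc J h i x * Dd f i x ^ 2) =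
      (Λ + 80 * r * m) * ∑ i, FS (gibbs J h) {i} f := by
    have e1 : ∑ i, FS (gibbs J h) {i} f =
        ∑ i, ∑ x, gibbs J h x * (sc J h i x * Dd f i x ^ 2) :=
      Finset.sum_congr rfl fun i _ => FS_single J hs h i f
    rw [e1, Finset.sum_comm, Finset.mul_sum]
    refine Finset.sum_congr rfl fun x _ => ?_
    rw [← Finset.mul_sum]
    ring
  have h5 : ∑ x, gibbs J h x * (∑ i, d i x) ^ 2 =
      ∑ i, FS (gibbs J h) {i} f +
        ∑ x, gibbs J h x * (∑ i, ∑ j ∈ Finset.univ.erase i, d i x * d j x) := by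
    have e1 : ∑ i, FS (gibbs J h) {i} f = ∑ x, gibbs J h x * ∑ i, d i x ^ 2 := by
      have e2 : ∑ i, FS (gibbs J h) {i} f = ∑ i, ∑ x, gibbs J h x * d i x ^ 2 :=
        Finset.sum_congr rfl fun i _ => rfl
      rw [e2, Finset.sum_comm]
      refine Finset.sum_congr rfl fun x _ => ?_
      rw [← Finset.mul_sum]
    rw [e1, ← Finset.sum_add_distrib]
    refine Finset.sum_congr rfl fun x _ => ?_
    rw [← mul_add, ← Finset.sum_add_distrib]
    congr 1
    rw [sq, Finset.sum_mul]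
    refine Finset.sum_congr rfl fun i _ => ?_
    rw [Finset.mul_sum, ← Finset.add_sum_erase Finset.univ _ (Finset.mem_univ i)]
    ring
  have h6 : ∑ x, gibbs J h x * (∑ i, (f x - cE (gibbs J h) {i} f x)) ^ 2 =
      ∑ x, gibbs J h x * (∑ i, d i x) ^ 2 := rfl
  rw [h6, h5]
  rw [h2] at h1
  rw [h4] at h3
  have h7 : (1 - Λ - 80 * r * m) * ∑ i, FS (gibbs J h) {i} f =
      ∑ i, FS (gibbs J h) {i} f - (Λ + 80 * r * m) * ∑ i, FS (gibbs J h) {i} f := by ring
  rw [h7]
  linarith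

end SKG
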