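import Pool.Agent.Lib.MP_c42713_prK.KAbs
import Pool.Agent.Lib.MP_c42713_prK.KCh
import Pool.Agent.Lib.MP_c42713_prK.KSum
import Pool.Agent.Lib.MP_c42713_prH.HPoin

/-!
# The spectral gap from the deterministic properties of the matrix
-/

namespace SKG

variable {n : ℕ}

/-- the deterministic properties of the matrix relative to the set `S` of the sites with a
possibly weak field -/
structure GoodS (W : Matrix (Fin n) (Fin n) ℝ) (S : Finset (Fin n)) (a θ ε : ℝ) : Prop where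
  spec : ∀ T ∈ smallSets n θ, ∀ v : Fin n → ℝ, (∀ i, i ∉ S ∪ T → v i = 0) →
    KB W v v ≤ (2 * Real.sqrt a + ε) * ∑ i, v i ^ 2
  row : ∀ T ∈ smallSets n θ, ∀ j, ∑ k ∈ S ∪ T, W j k ^ 2 ≤ a + ε

/-- the sites outside `S` with a field smaller than `K` -/
noncomputable def weakSites (S : Finset (Fin n)) (K : ℝ) (h : Fin n → ℝ) : Finset (Fin n) :=
  Finset.univ.filter (fun i => i ∉ S ∧ |h i| < K)

private theorem KDet_offd_sum (J : Matrix (Fin n) (Fin n) ℝ) (F : Fin n → Fin n → ℝ) :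
    ∀ i, ∑ j, offd J i j * F i j = ∑ j ∈ Finset.univ.erase i, J i j * F i j := by
  intro i
  rw [← Finset.add_sum_erase Finset.univ _ (Finset.mem_univ i)]
  have h0 : offd J i i = 0 := by unfold offd; simp
  rw [h0, zero_mul, zero_add]
  refine Finset.sum_congr rfl fun j hj => ?_
  have : i ≠ j := fun h => (Finset.ne_of_mem_erase hj) h.symm
  unfold offd
  rw [if_neg this]

private theorem KDet_offd_sq (J : Matrix (Fin n) (Fin n) ℝ) (F : Fin n → Fin n → ℝ) :
    ∀ i, ∑ j, 2 * offd J i j ^ 2 * F i j = ∑ j ∈ Finset.univ.erase i, 2 * J i j ^ 2 * F i j := by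
  intro i
  rw [← Finset.add_sum_erase Finset.univ _ (Finset.mem_univ i)]
  have h0 : offd J i i = 0 := by unfold offd; simp
  rw [h0]
  have e : (2 : ℝ) * 0 ^ 2 * F i i = 0 := by ring
  rw [e, zero_add]
  refine Finset.sum_congr rfl fun j hj => ?_
  have : i ≠ j := fun h => (Finset.ne_of_mem_erase hj) h.symm
  unfold offd
  rw [if_neg this]

private theorem KDet_sech {l b : ℝ} (hb : 0 < b) (hl : b ≤ |l|) : 1 - Real.tanh l ^ 2 ≤ 1 / b ^ 2 := by
  have hc : 0 < Real.cosh l := Real.cosh_pos l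
  have h1 : 1 - Real.tanh l ^ 2 = 1 / Real.cosh l ^ 2 := by
    rw [Real.tanh_eq_sinh_div_cosh, div_pow, eq_div_iff (pow_ne_zero 2 hc.ne'), sub_mul,
      div_mul_cancel₀ _ (pow_ne_zero 2 hc.ne'), Real.cosh_sq]
    ring
  rw [h1]
  apply one_div_le_one_div_of_le (by positivity)
  have h2 : |l| ≤ Real.cosh l := by
    have h3 : |l| ≤ |Real.sinh l| := by
      rcases le_total 0 l with h | h
      · rw [abs_of_nonneg h, abs_of_nonneg (Real.sinh_nonneg_iff.2 h)]
        exact Real.self_le_sinh_iff.2 h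
      · rw [abs_of_nonpos h, abs_of_nonpos (Real.sinh_nonpos_iff.2 h)]
        have := Real.self_le_sinh_iff.2 (neg_nonneg.2 h)
        rw [Real.sinh_neg] at this
        linarith
    have h4 : |Real.sinh l| ≤ Real.cosh l := by
      rw [← abs_of_pos hc]
      apply sq_le_sq.1
      rw [Real.cosh_sq]
      linarith
    linarith
  exact pow_le_pow_left₀ hb.le (hl.trans h2) 2

private theorem KDet_sgsq (x : Conf n) : ∑ i, sg (x i) ^ 2 = n := by
  have h : ∀ i, sg (x i) ^ 2 = 1 := by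
    intro i
    cases x i <;> simp [sg]
  rw [Finset.sum_congr rfl fun i _ => h i]
  simp

/-- the pointwise inequality needed in `gammaK` -/
theorem det_point (β ε a θ κ K : ℝ) (hβ : 0 < β) (h0 : 0 < ε) (ha : 0 ≤ a)
    (W : Matrix (Fin n) (Fin n) ℝ) (hW : Good W ε) (S : Finset (Fin n)) (hS : GoodS W S a θ ε)
    (hκ0 : 0 < κ) (hκ1 : κ ≤ 1) (hK0 : 0 < K) (hKκ : 2 ≤ K * κ)
    (hKθ : 8 * (β * (2 + 2 * ε)) ^ 2 ≤ K ^ 2 * θ)
    (hcΛ : 2 * (β ^ 2 * (a + ε)) ≤ β * (2 * Real.sqrt a + 2 * ε))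
    (h : Fin n → ℝ) (hh : ((weakSites S K h).card : ℝ) ≤ θ / 2 * n) (x : Conf n) (δ : Fin n → ℝ) :
    ∑ i, ∑ j ∈ Finset.univ.erase i,
      ((β • W) i j * ((sc (β • W) h i x * δ i) * (sc (β • W) h j x * δ j)) +
        2 * (β • W) i j ^ 2 * (th (β • W) h i x * th (β • W) h j x *
          ((sc (β • W) h i x * δ i) * (sc (β • W) h j x * δ j)))) ≤
      (β * (2 * Real.sqrt a + 2 * ε) + 3 * κ * (β * (2 + 2 * ε)) + 2 * κ * (β ^ 2 * (1 + ε))) *
        ∑ i, sc (β • W) h i x * δ i ^ 2 := by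
  classical
  set J : Matrix (Fin n) (Fin n) ℝ := β • W with hJ
  have hJij : ∀ i j, J i j = β * W i j := fun i j => by rw [hJ, Matrix.smul_apply, smul_eq_mul]
  set M : Matrix (Fin n) (Fin n) ℝ := offd J with hMdef
  set L : ℝ := β * (2 + 2 * ε) with hLdef
  have hL0 : 0 < L := by rw [hLdef]; positivity
  have hsym : J.IsSymm := by
    have := hW.symm
    unfold Matrix.IsSymm at this ⊢
    rw [hJ, Matrix.transpose_smul, this]
  have hM : M.IsSymm := by
    ext i j
    rw [Matrix.transpose_apply]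
    rw [hMdef]
    unfold offd
    by_cases hij : i = j
    · subst hij; rfl
    · rw [if_neg hij, if_neg (fun h => hij h.symm), hsym.apply i j]
  -- the forms of `M` and `W`
  have hMW : ∀ v : Fin n → ℝ, KB M v v = β * KB W v v - β * ∑ i, W i i * v i ^ 2 := by
    intro v
    unfold KB
    have e1 : ∀ i, ∑ j, M i j * v i * v j = β * ∑ j, W i j * v i * v j - β * (W i i * v i ^ 2) := by
      intro i
      have e2 := KDet_offd_sum J (fun i j => v i * v j) i
      have e3 : ∑ j, M i j * v i * v j = ∑ j, offd J i j * (v i * v j) :=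
        Finset.sum_congr rfl fun j _ => by rw [hMdef, mul_assoc]
      rw [e3, e2]
      have e4 := Finset.sum_erase_add (Finset.univ : Finset (Fin n))
        (fun j => J i j * (v i * v j)) (Finset.mem_univ i)
      have e5 : ∑ j, J i j * (v i * v j) = β * ∑ j, W i j * v i * v j := by
        rw [Finset.mul_sum]
        exact Finset.sum_congr rfl fun j _ => by rw [hJij]; ring
      rw [e5, hJij] at e4
      linarith
    rw [Finset.sum_congr rfl fun i _ => e1 i, Finset.sum_sub_distrib, ← Finset.mul_sum,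
      ← Finset.mul_sum]
  have hdiag : ∀ v : Fin n → ℝ, |∑ i, W i i * v i ^ 2| ≤ ε * ∑ i, v i ^ 2 := by
    intro v
    refine (Finset.abs_sum_le_sum_abs _ _).trans ?_
    rw [Finset.mul_sum]
    refine Finset.sum_le_sum fun i _ => ?_
    rw [abs_mul, abs_of_nonneg (sq_nonneg (v i))]
    exact mul_le_mul_of_nonneg_right (hW.diag i) (sq_nonneg _)
  have hLM : ∀ v : Fin n → ℝ, |KB M v v| ≤ L * ∑ i, v i ^ 2 := by
    intro v
    rw [hMW v, ← mul_sub, abs_mul, abs_of_pos hβ, hLdef, mul_assoc]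
    apply mul_le_mul_of_nonneg_left _ hβ.le
    have b1 := hW.norm v
    have b2 := hdiag v
    have b3 : |KB W v v| ≤ (2 + ε) * ∑ i, v i ^ 2 := b1
    have b4 := abs_sub (KB W v v) (∑ i, W i i * v i ^ 2)
    linarith
  -- the local fields
  set u : Fin n → ℝ := fun i => ∑ j, M i j * sg (x j) with hu
  have hlfd : ∀ i, lfd J h i x = u i + h i := by
    intro i
    unfold lfd
    rw [hu]
    have := KDet_offd_sum J (fun _ j => sg (x j)) i
    simp only [← hMdef] at this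
    rw [← this]
  have hu2 : ∑ i, u i ^ 2 ≤ L ^ 2 * n := by
    have := KB_op M hM L hL0 hLM (fun j => sg (x j))
    rw [KDet_sgsq x] at this
    exact this
  set T1 : Finset (Fin n) := Finset.univ.filter (fun i => K / 2 < |u i|) with hT1
  have hT1c : (T1.card : ℝ) ≤ θ / 2 * n := by
    have h1 : (T1.card : ℝ) * (K / 2) ^ 2 ≤ ∑ i, u i ^ 2 := by
      calc (T1.card : ℝ) * (K / 2) ^ 2 = ∑ _i ∈ T1, (K / 2) ^ 2 := by
            rw [Finset.sum_const, nsmul_eq_mul]
        _ ≤ ∑ i ∈ T1, u i ^ 2 := by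
            refine Finset.sum_le_sum fun i hi => ?_
            have hi' : K / 2 < |u i| := (Finset.mem_filter.1 hi).2
            rw [← sq_abs (u i)]
            exact pow_le_pow_left₀ (by positivity) hi'.le 2
        _ ≤ ∑ i, u i ^ 2 :=
            Finset.sum_le_sum_of_subset_of_nonneg (Finset.subset_univ _) fun _ _ _ => sq_nonneg _
    have h2 := h1.trans hu2
    have hK2 : 0 < K ^ 2 := by positivity
    have hn0 : (0 : ℝ) ≤ n := Nat.cast_nonneg n
    have h3 : (T1.card : ℝ) * K ^ 2 ≤ (θ / 2 * n) * K ^ 2 := by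
      have e1 : (T1.card : ℝ) * K ^ 2 = 4 * ((T1.card : ℝ) * (K / 2) ^ 2) := by ring
      have e2 := mul_le_mul_of_nonneg_right hKθ hn0
      rw [e1]
      linarith
    exact le_of_mul_le_mul_right h3 hK2
  set T : Finset (Fin n) := weakSites S K h ∪ T1 with hT
  have hTs : T ∈ smallSets n θ := by
    rw [mem_smallSets]
    have h1 : (T.card : ℝ) ≤ (weakSites S K h).card + T1.card := by
      rw [hT]
      exact_mod_cast Finset.card_union_le _ _
    linarith
  set U : Finset (Fin n) := S ∪ T with hU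
  have hout : ∀ i, i ∉ U → sc J h i x ≤ κ ^ 2 := by
    intro i hi
    rw [hU, Finset.mem_union, not_or, hT, Finset.mem_union, not_or] at hi
    obtain ⟨hiS, hiw, hi1⟩ := hi
    have h1 : K ≤ |h i| := by
      by_contra hc
      apply hiw
      unfold weakSites
      rw [Finset.mem_filter]
      exact ⟨Finset.mem_univ _, hiS, not_le.1 hc⟩
    have h2 : |u i| ≤ K / 2 := by
      by_contra hc
      apply hi1
      rw [hT1, Finset.mem_filter]
      exact ⟨Finset.mem_univ _, not_le.1 hc⟩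
    have h3 : K / 2 ≤ |lfd J h i x| := by
      rw [hlfd i]
      have := abs_sub_abs_le_abs_sub (h i) (-u i)
      rw [abs_neg, sub_neg_eq_add, add_comm (h i)] at this
      linarith
    unfold sc th
    refine (KDet_sech (by positivity) h3).trans ?_
    rw [div_le_iff₀ (by positivity)]
    have h4 : 1 ≤ κ * (K / 2) := by linarith
    calc (1 : ℝ) = 1 ^ 2 := by norm_num
      _ ≤ (κ * (K / 2)) ^ 2 := pow_le_pow_left₀ zero_le_one h4 2
      _ = κ ^ 2 * (K / 2) ^ 2 := by ring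
  have hΛ : ∀ v : Fin n → ℝ, (∀ i, i ∉ U → v i = 0) →
      KB M v v ≤ β * (2 * Real.sqrt a + 2 * ε) * ∑ i, v i ^ 2 := by
    intro v hv
    rw [hMW v, ← mul_sub, mul_assoc]
    apply mul_le_mul_of_nonneg_left _ hβ.le
    have b1 := hS.spec T hTs v hv
    have b2 := (abs_le.1 (hdiag v)).1
    linarith
  have hMsq : ∀ j k, M j k ^ 2 ≤ β ^ 2 * W j k ^ 2 := by
    intro j k
    rw [hMdef]
    unfold offd
    split_ifs
    · rw [zero_pow (by norm_num)]
      positivity
    · rw [hJij, mul_pow]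
  have hc : ∀ j, 2 * ∑ k ∈ U, M j k ^ 2 ≤ 2 * (β ^ 2 * (a + ε)) := by
    intro j
    have b1 := hS.row T hTs j
    have b2 : ∑ k ∈ U, M j k ^ 2 ≤ β ^ 2 * ∑ k ∈ S ∪ T, W j k ^ 2 := by
      rw [Finset.mul_sum]
      exact Finset.sum_le_sum fun k _ => hMsq j k
    have b3 := mul_le_mul_of_nonneg_left b1 (sq_nonneg β)
    linarith
  have hr : ∀ j, ∑ k, M j k ^ 2 ≤ β ^ 2 * (1 + ε) := by
    intro j
    have b1 := (abs_le.1 (hW.sq j)).2
    have b2 : ∑ k, M j k ^ 2 ≤ β ^ 2 * ∑ k, W j k ^ 2 := by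
      rw [Finset.mul_sum]
      exact Finset.sum_le_sum fun k _ => hMsq j k
    have b3 : β ^ 2 * ∑ k, W j k ^ 2 ≤ β ^ 2 * (1 + ε) :=
      mul_le_mul_of_nonneg_left (by linarith) (sq_nonneg β)
    linarith
  have hΛ0 : 0 ≤ β * (2 * Real.sqrt a + 2 * ε) := by
    have := Real.sqrt_nonneg a
    positivity
  have key := KAbs_main M hM (fun i => sc J h i x) (fun i => th J h i x) δ
    (fun i => (KSum_sc J h i x).1) (fun i => (KSum_sc J h i x).2)
    (fun i => by unfold sc; ring) U κ hκ0 hκ1 hout L (β * (2 * Real.sqrt a + 2 * ε))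
    (2 * (β ^ 2 * (a + ε))) (β ^ 2 * (1 + ε)) hL0.le hLM hΛ0 hΛ hcΛ hc hr
  refine le_trans (le_of_eq ?_) key
  unfold KB
  rw [← Finset.sum_add_distrib]
  refine Finset.sum_congr rfl fun i _ => ?_
  rw [Finset.sum_add_distrib]
  congr 1
  · have e := KDet_offd_sum J (fun i j => (sc J h i x * δ i) * (sc J h j x * δ j)) i
    rw [← e]
    refine Finset.sum_congr rfl fun j _ => ?_
    rw [hMdef]
    ring
  · have e := KDet_offd_sq J (fun i j => th J h i x * th J h j x *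
      ((sc J h i x * δ i) * (sc J h j x * δ j))) i
    rw [← e]

/-- the spectral gap -/
theorem det_gap (β ε a θ κ K : ℝ) (hβ : 0 < β) (h0 : 0 < ε) (ha : 0 ≤ a)
    (W : Matrix (Fin n) (Fin n) ℝ) (hW : Good W ε) (hE : ∀ i j, |W i j| ≤ ε)
    (hβε : β * ε ≤ 1 / 20)
    (S : Finset (Fin n)) (hS : GoodS W S a θ ε)
    (hκ0 : 0 < κ) (hκ1 : κ ≤ 1) (hK0 : 0 < K) (hKκ : 2 ≤ K * κ)
    (hKθ : 8 * (β * (2 + 2 * ε)) ^ 2 ≤ K ^ 2 * θ)
    (hcΛ : 2 * (β ^ 2 * (a + ε)) ≤ β * (2 * Real.sqrt a + 2 * ε)) (γ : ℝ) (hγ : 0 < γ)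
    (hγ2 : γ ≤ 1 - (β * (2 * Real.sqrt a + 2 * ε) + 3 * κ * (β * (2 + 2 * ε)) +
      2 * κ * (β ^ 2 * (1 + ε))) - 80 * (β ^ 2 * (1 + ε)) * (β * ε))
    (h : Fin n → ℝ) (hh : ((weakSites S K h).card : ℝ) ≤ θ / 2 * n) (f : Conf n → ℝ) :
    γ * FS (gibbs (β • W) h) Finset.univ f ≤ ∑ i, FS (gibbs (β • W) h) {i} f := by
  have hsym : (β • W).IsSymm := by
    have := hW.symm
    unfold Matrix.IsSymm at this ⊢
    rw [Matrix.transpose_smul, this]
  have hJ : ∀ i j, i ≠ j → |(β • W) i j| ≤ β * ε := by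
    intro i j _
    rw [Matrix.smul_apply, smul_eq_mul, abs_mul, abs_of_pos hβ]
    exact mul_le_mul_of_nonneg_left (hE i j) hβ.le
  have hrow : ∀ i, ∑ j ∈ Finset.univ.erase i, (β • W) i j ^ 2 ≤ β ^ 2 * (1 + ε) := by
    intro i
    have a1 : ∑ j ∈ Finset.univ.erase i, (β • W) i j ^ 2 ≤ ∑ j, (β • W) i j ^ 2 :=
      Finset.sum_le_sum_of_subset_of_nonneg (Finset.erase_subset _ _) (fun _ _ _ => sq_nonneg _)
    have e : ∑ k, ((β • W) i k) ^ 2 = β ^ 2 * ∑ k, W i k ^ 2 := by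
      rw [Finset.mul_sum]; refine Finset.sum_congr rfl fun k _ => ?_
      simp [Matrix.smul_apply, mul_pow]
    have a2 := (abs_le.1 (hW.sq i)).2
    have a4 : β ^ 2 * ∑ k, W i k ^ 2 ≤ β ^ 2 * (1 + ε) :=
      mul_le_mul_of_nonneg_left (by linarith) (sq_nonneg _)
    rw [e] at a1
    linarith
  refine poinc_of_gamma2 (fun x => gibbs_pos (β • W) h x) (gibbs_sum (β • W) h) γ hγ ?_ f
  intro f'
  have hs0 : 0 ≤ ∑ i, FS (gibbs (β • W) h) {i} f' := by
    refine Finset.sum_nonneg fun i _ => ?_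
    unfold FS
    exact Finset.sum_nonneg fun x _ => mul_nonneg (gibbs_pos (β • W) h x).le (sq_nonneg _)
  have hg := gammaK (β • W) hsym h _ (β * ε) (β ^ 2 * (1 + ε)) (mul_pos hβ h0).le hβε hJ hrow
    (fun x δ => det_point β ε a θ κ K hβ h0 ha W hW S hS hκ0 hκ1 hK0 hKκ hKθ hcΛ h hh x δ) f'
  exact le_trans (mul_le_mul_of_nonneg_right hγ2 hs0) hg

end SKG
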