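import Pool.Agent.Lib.MP_c42713_prK.KCh
import Pool.Agent.Lib.MP_c42713_pr.RVec
import Pool.Agent.Lib.MP_c42713_pr.RSlep

/-!
# Upper bound for the quadratic form of GOE on finite sets of sparse unit vectors
-/

namespace SKG

open MeasureTheory ProbabilityTheory Filter Topology

theorem KFin_chern_p (n : ℕ) (p0 : Fin n × Fin n) (ε : ℝ) :
    gauss n {g | ε ^ 2 * n / 8 ≤ g p0 ^ 2} ≤
      ENNReal.ofReal (Real.exp (1 - n * (ε ^ 2 / 64))) := by
  classical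
  set c : Fin n × Fin n → ℝ := fun p => if p = p0 then 1 else 0 with hc
  have hc0 : ∀ p, 0 ≤ c p := by
    intro p; simp only [hc]; split_ifs <;> norm_num
  have hc2 : ∀ p, c p ≤ 2 := by
    intro p; simp only [hc]; split_ifs <;> norm_num
  have hs1 : ∑ p, c p = 1 := by simp [hc]
  have hs2 : ∑ p, c p ^ 2 = 1 := by simp [hc]
  have h1 := chern_up c hc0 hc2 (1 / 8) (by norm_num) le_rfl (ε ^ 2 * n / 8)
  rw [hs1, hs2] at h1
  rw [gauss_eq]
  have h2 : {g : Fin n × Fin n → ℝ | ε ^ 2 * n / 8 ≤ g p0 ^ 2} =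
      {g | ε ^ 2 * n / 8 ≤ ∑ p, c p * g p ^ 2} := by
    ext g
    simp only [Set.mem_ofPred_eq]
    simp [hc]
  rw [h2]
  refine h1.trans (ENNReal.ofReal_le_ofReal (Real.exp_le_exp.mpr ?_))
  have h3 : -(1 / 8 * (ε ^ 2 * n / 8)) + 1 / 8 * 1 + 2 * (1 / 8) ^ 2 * 1 =
      5 / 32 - n * (ε ^ 2 / 64) := by ring
  rw [h3]
  linarith

/-- sparse version of `vb_le` -/
theorem KFin_vb {n : ℕ} {q : Fin n → Fin n × Fin n} (u : Fin n → ℝ) (hu : ∑ i, u i ^ 2 = 1)
    (U : Finset (Fin n)) (hU : ∀ i, i ∉ U → u i = 0) (g : Smp n) (s : ℝ) (hs : 0 ≤ s)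
    (hg : 2 * ∑ i ∈ U, g (q i) ^ 2 ≤ s ^ 2) : ∑ p, vb q u p * g p ≤ s := by
  have h0 : ∑ p, vb q u p * g p = ∑ i, Real.sqrt 2 * u i * g (q i) := by
    have e1 : ∀ p, vb q u p * g p = ∑ i, (if q i = p then Real.sqrt 2 * u i * g p else 0) := by
      intro p
      unfold vb
      rw [Finset.sum_mul]
      refine Finset.sum_congr rfl fun i _ => ?_
      split_ifs <;> ring
    rw [Finset.sum_congr rfl fun p _ => e1 p, Finset.sum_comm]
    refine Finset.sum_congr rfl fun i _ => ?_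
    rw [Finset.sum_ite_eq Finset.univ (q i), if_pos (Finset.mem_univ _)]
  have h1 : ∑ i, Real.sqrt 2 * u i * g (q i) = ∑ i ∈ U, u i * (Real.sqrt 2 * g (q i)) := by
    rw [← Finset.sum_subset (Finset.subset_univ U)]
    · exact Finset.sum_congr rfl fun i _ => by ring
    · intro i _ hi
      rw [hU i hi]
      ring
  rw [h0, h1]
  have h2 : Real.sqrt 2 ^ 2 = 2 := Real.sq_sqrt (by norm_num)
  have h3 := Finset.sum_mul_sq_le_sq_mul_sq U u (fun i => Real.sqrt 2 * g (q i))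
  have h4 : ∑ i ∈ U, (Real.sqrt 2 * g (q i)) ^ 2 = 2 * ∑ i ∈ U, g (q i) ^ 2 := by
    rw [Finset.mul_sum]
    refine Finset.sum_congr rfl fun i _ => ?_
    rw [mul_pow, h2]
  have h5 : ∑ i ∈ U, u i ^ 2 ≤ 1 := by
    rw [← hu]
    exact Finset.sum_le_sum_of_subset_of_nonneg (Finset.subset_univ _) fun _ _ _ => sq_nonneg _
  have h6 : 0 ≤ ∑ i ∈ U, g (q i) ^ 2 := Finset.sum_nonneg fun _ _ => sq_nonneg _
  rw [h4] at h3
  have h7 : (∑ i ∈ U, u i * (Real.sqrt 2 * g (q i))) ^ 2 ≤ s ^ 2 := by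
    calc _ ≤ (∑ i ∈ U, u i ^ 2) * (2 * ∑ i ∈ U, g (q i) ^ 2) := h3
      _ ≤ 1 * (2 * ∑ i ∈ U, g (q i) ^ 2) := mul_le_mul_of_nonneg_right h5 (by positivity)
      _ ≤ s ^ 2 := by linarith
  exact le_trans (le_abs_self _) (abs_le_of_sq_le_sq h7 hs |> fun h => by simpa using h)

/-- upper bound for the quadratic form of GOE on finite sets of sparse unit vectors; the failure
probability does not depend on the finite set -/
theorem KFin_goe {n : ℕ} (hn : 4 ≤ n) (S : Finset (Fin n)) (a ε θ : ℝ) (ha0 : 0 ≤ a) (ha1 : a ≤ 1)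
    (hε : 0 < ε) (hε1 : ε ≤ 1) (hS : (S.card : ℝ) ≤ a * n) (hθ0 : 0 ≤ θ)
    (hθ : θ ≤ (kl (ε ^ 2 / 64) * (ε ^ 2 / 64) / 4) ^ 2 / 4)
    (κ : Type) [Fintype κ] (V : κ → Fin n → ℝ) (T : κ → Finset (Fin n))
    (hT : ∀ k, T k ∈ smallSets n θ) (hV : ∀ k, ∑ i, V k i ^ 2 = 1)
    (hVT : ∀ k i, i ∉ S ∪ T k → V k i = 0) :
    gauss n {g | ∃ k, 2 * Real.sqrt a + ε < ∑ i, ∑ j, goe n g i j * V k i * V k j} ≤
      ENNReal.ofReal (Real.exp (1 - kl (ε ^ 2 / 64) * (ε ^ 2 / 64) / 4 * n)) +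
      ENNReal.ofReal (Real.exp (1 - n * (ε ^ 2 / 64))) := by
  classical
  obtain ⟨q, p0, h⟩ := exists_low hn
  have hn0 : (0 : ℝ) < n := by
    have : 0 < n := by omega
    exact_mod_cast this
  set r : ℝ := Real.sqrt (n / 2) with hr
  have hr0 : 0 < r := Real.sqrt_pos.mpr (by positivity)
  have hr2 : r ^ 2 = n / 2 := Real.sq_sqrt (by positivity)
  have hrr : Real.sqrt (2 / n) * r = 1 := by
    rw [hr, ← Real.sqrt_mul (by positivity)]
    have : (2 / (n : ℝ)) * (n / 2) = 1 := by field_simp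
    rw [this, Real.sqrt_one]
  have hr'0 : 0 ≤ Real.sqrt (2 / n) := Real.sqrt_nonneg _
  set b : ℝ := Real.sqrt a with hb
  have hb0 : 0 ≤ b := Real.sqrt_nonneg _
  have hb2 : b ^ 2 = a := Real.sq_sqrt ha0
  set A : Set (Smp n) := {g | ∀ k, ∑ p, va p0 (V k) p * g p ≤ (2 * b + ε / 4) * r + ε / 4 * r}
    with hA
  set B : Set (Smp n) := {g | ∀ k, ∑ p, vb q (V k) p * g p ≤ (2 * b + ε / 4) * r} with hB
  have hmeas : ∀ (c : κ → Fin n × Fin n → ℝ) (t : ℝ),
      MeasurableSet {g : Smp n | ∀ k, ∑ p, c k p * g p ≤ t} := by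
    intro c t
    have h1 : {g : Smp n | ∀ k, ∑ p, c k p * g p ≤ t} = ⋂ k, {g : Smp n | ∑ p, c k p * g p ≤ t} := by
      ext g; simp
    rw [h1]
    refine MeasurableSet.iInter fun k => ?_
    refine measurableSet_le ?_ measurable_const
    exact Finset.measurable_sum _ fun p _ => (measurable_pi_apply p).const_mul _
  have hAm : MeasurableSet A := hmeas _ _
  have hBm : MeasurableSet B := hmeas _ _
  have hBA : gauss n B ≤ gauss n A := by
    rw [gauss_eq]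
    refine slepian (fun k => va p0 (V k)) (fun k => vb q (V k))
      (fun u v => vab_inner h (V u) (V v)) (fun u => ?_) (fun u v => ?_)
      ((2 * b + ε / 4) * r) (ε / 4 * r) (by positivity)
    · have h1 := va_inner h (V u) (V u)
      have h2 := vb_inner h (V u) (V u)
      have h3 : ∑ i, V u i * V u i = 1 := by
        rw [← hV u]
        exact Finset.sum_congr rfl fun i _ => by ring
      rw [h3] at h1 h2
      simp only [← pow_two] at h1 h2
      rw [h1, h2]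
      norm_num
    · rw [va_inner h, vb_inner h]
      nlinarith [sq_nonneg (∑ i, V u i * V v i - 1)]
  have hBc : Bᶜ ⊆ {g | ∃ T ∈ smallSets n θ,
      (a + ε ^ 2 / 64) * n ≤ ∑ k ∈ S ∪ T, (fun _ : Fin n => (1 : ℝ)) k * g (q k) ^ 2} := by
    intro g hg
    by_contra hcon
    apply hg
    intro k
    have h1 : ∑ i ∈ S ∪ T k, g (q i) ^ 2 ≤ (a + ε ^ 2 / 64) * n := by
      by_contra h2
      apply hcon
      refine ⟨T k, hT k, ?_⟩
      simp only [one_mul]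
      exact (not_le.1 h2).le
    refine KFin_vb (V k) (hV k) (S ∪ T k) (hVT k) g ((2 * b + ε / 4) * r) (by positivity) ?_
    have h2 : ((2 * b + ε / 4) * r) ^ 2 = (2 * a + b * ε / 2 + ε ^ 2 / 32) * n := by
      rw [mul_pow, hr2, ← hb2]
      ring
    rw [h2]
    have h3 : 0 ≤ b * ε / 2 * n := by positivity
    linarith
  have hsub : {g : Smp n | ∃ k, 2 * b + ε < ∑ i, ∑ j, goe n g i j * V k i * V k j} ⊆
      Aᶜ ∪ {g | ε ^ 2 * n / 8 ≤ g p0 ^ 2} := by
    rintro g ⟨k, hk⟩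
    by_contra hcon
    rw [Set.mem_union, not_or, Set.notMem_compl_iff] at hcon
    obtain ⟨h1, h2⟩ := hcon
    have h3 := h1 k
    simp only [Set.mem_ofPred_eq, not_le] at h2
    have h4 : g p0 ^ 2 < (ε / 2 * r) ^ 2 := by
      rw [mul_pow, hr2]
      calc g p0 ^ 2 < ε ^ 2 * n / 8 := h2
        _ = (ε / 2) ^ 2 * (n / 2) := by ring
    have h5 := abs_lt_of_sq_lt_sq h4 (by positivity)
    have h6 : -(ε / 2 * r) < g p0 := (abs_lt.mp h5).1
    rw [goe_form h] at hk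
    have h7 : ∑ p, va p0 (V k) p * g p - g p0 ≤ (2 * b + ε) * r := by
      have : (2 * b + ε / 4) * r + ε / 4 * r + ε / 2 * r = (2 * b + ε) * r := by ring
      linarith
    have h8 : Real.sqrt (2 / n) * (∑ p, va p0 (V k) p * g p - g p0) ≤ 2 * b + ε := by
      calc _ ≤ Real.sqrt (2 / n) * ((2 * b + ε) * r) := mul_le_mul_of_nonneg_left h7 hr'0
        _ = (2 * b + ε) * (Real.sqrt (2 / n) * r) := by ring
        _ = 2 * b + ε := by rw [hrr, mul_one]
    linarith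
  have hAc : gauss n Aᶜ ≤ gauss n Bᶜ := by
    rw [prob_compl_eq_one_sub hAm, prob_compl_eq_one_sub hBm]
    exact tsub_le_tsub_left hBA 1
  have hε2 : 0 < ε ^ 2 / 64 := by positivity
  have hε3 : ε ^ 2 / 64 ≤ 1 := by nlinarith
  have hch := KCh_all S q h.inj (fun _ => 1) (fun _ => zero_le_one) (fun _ => by norm_num)
    (fun U => by simp) a (ε ^ 2 / 64) θ ha1 hε2 hε3 hS hθ0 hθ
  calc gauss n {g : Smp n | ∃ k, 2 * b + ε < ∑ i, ∑ j, goe n g i j * V k i * V k j}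
      ≤ gauss n (Aᶜ ∪ {g | ε ^ 2 * n / 8 ≤ g p0 ^ 2}) := measure_mono hsub
    _ ≤ gauss n Aᶜ + gauss n {g | ε ^ 2 * n / 8 ≤ g p0 ^ 2} := measure_union_le _ _
    _ ≤ _ := add_le_add ((hAc.trans (measure_mono hBc)).trans hch) (KFin_chern_p n p0 ε)

end SKG
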