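import Pool.Agent.Lib.MP_c42713_pr.MatDefs

/-!
# Symmetric quadratic forms
-/

namespace SKG

variable {n : ℕ}

/-- the bilinear form of a matrix -/
noncomputable def KB (W : Matrix (Fin n) (Fin n) ℝ) (x y : Fin n → ℝ) : ℝ :=
  ∑ i, ∑ j, W i j * x i * y j

theorem KB_symm (W : Matrix (Fin n) (Fin n) ℝ) (hW : W.IsSymm) (x y : Fin n → ℝ) :
    KB W x y = KB W y x := by
  unfold KB
  rw [Finset.sum_comm]
  refine Finset.sum_congr rfl fun i _ => Finset.sum_congr rfl fun j _ => ?_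
  rw [hW.apply i j]
  ring

theorem KB_add_left (W : Matrix (Fin n) (Fin n) ℝ) (x x' y : Fin n → ℝ) :
    KB W (fun i => x i + x' i) y = KB W x y + KB W x' y := by
  unfold KB
  rw [← Finset.sum_add_distrib]
  refine Finset.sum_congr rfl fun i _ => ?_
  rw [← Finset.sum_add_distrib]
  refine Finset.sum_congr rfl fun j _ => ?_
  ring

theorem KB_smul_left (W : Matrix (Fin n) (Fin n) ℝ) (a : ℝ) (x y : Fin n → ℝ) :
    KB W (fun i => a * x i) y = a * KB W x y := by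
  unfold KB
  rw [Finset.mul_sum]
  refine Finset.sum_congr rfl fun i _ => ?_
  rw [Finset.mul_sum]
  refine Finset.sum_congr rfl fun j _ => ?_
  ring

theorem KB_add (W : Matrix (Fin n) (Fin n) ℝ) (hW : W.IsSymm) (x y : Fin n → ℝ) :
    KB W (fun i => x i + y i) (fun i => x i + y i) = KB W x x + 2 * KB W x y + KB W y y := by
  have h1 : ∀ z, KB W z (fun i => x i + y i) = KB W z x + KB W z y := by
    intro z
    rw [KB_symm W hW z, KB_add_left, KB_symm W hW x, KB_symm W hW y]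
  rw [KB_add_left, h1, h1, KB_symm W hW y x]
  ring

/-- polarised bound with a parameter -/
theorem KB_cross (W : Matrix (Fin n) (Fin n) ℝ) (hW : W.IsSymm) (L : ℝ)
    (hL : ∀ v : Fin n → ℝ, |KB W v v| ≤ L * ∑ i, v i ^ 2) (s : ℝ) (hs : 0 < s)
    (u w : Fin n → ℝ) : 2 * KB W u w ≤ L * (s * ∑ i, u i ^ 2 + (∑ i, w i ^ 2) / s) := by
  have h1 := KB_add W hW u (fun i => s⁻¹ * w i)
  have h2 := KB_add W hW u (fun i => (-s⁻¹) * w i)
  have e1 : KB W u (fun i => s⁻¹ * w i) = s⁻¹ * KB W u w := by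
    rw [KB_symm W hW, KB_smul_left, KB_symm W hW]
  have e2 : KB W u (fun i => (-s⁻¹) * w i) = (-s⁻¹) * KB W u w := by
    rw [KB_symm W hW, KB_smul_left, KB_symm W hW]
  have e3 : ∀ c : ℝ, KB W (fun i => c * w i) (fun i => c * w i) = c ^ 2 * KB W w w := by
    intro c
    rw [KB_smul_left, KB_symm W hW, KB_smul_left]
    ring
  rw [e1, e3] at h1
  rw [e2, e3] at h2
  have b1 := (abs_le.1 (hL (fun i => u i + s⁻¹ * w i))).2
  have b2 := (abs_le.1 (hL (fun i => u i + (-s⁻¹) * w i))).1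
  rw [h1] at b1
  rw [h2] at b2
  have f1 : ∑ i, (u i + s⁻¹ * w i) ^ 2 + ∑ i, (u i + (-s⁻¹) * w i) ^ 2 =
      2 * ∑ i, u i ^ 2 + 2 * (s⁻¹ ^ 2 * ∑ i, w i ^ 2) := by
    rw [← Finset.sum_add_distrib, Finset.mul_sum, Finset.mul_sum, Finset.mul_sum,
      ← Finset.sum_add_distrib]
    refine Finset.sum_congr rfl fun i _ => ?_
    ring
  have f2 : 4 * (s⁻¹ * KB W u w) ≤ L * (2 * ∑ i, u i ^ 2 + 2 * (s⁻¹ ^ 2 * ∑ i, w i ^ 2)) := by
    rw [← f1, mul_add]
    linarith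
  have f3 := mul_le_mul_of_nonneg_left f2 hs.le
  have g1 : s * (4 * (s⁻¹ * KB W u w)) = 4 * KB W u w := by
    field_simp
  have g2 : s * (L * (2 * ∑ i, u i ^ 2 + 2 * (s⁻¹ ^ 2 * ∑ i, w i ^ 2))) =
      2 * (L * (s * ∑ i, u i ^ 2 + (∑ i, w i ^ 2) / s)) := by
    field_simp
  rw [g1, g2] at f3
  linarith

/-- the operator norm bound -/
theorem KB_op (W : Matrix (Fin n) (Fin n) ℝ) (hW : W.IsSymm) (L : ℝ) (hL0 : 0 < L)
    (hL : ∀ v : Fin n → ℝ, |KB W v v| ≤ L * ∑ i, v i ^ 2) (x : Fin n → ℝ) :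
    ∑ i, (∑ j, W i j * x j) ^ 2 ≤ L ^ 2 * ∑ i, x i ^ 2 := by
  have h1 := KB_cross W hW L hL L hL0 x (fun i => ∑ j, W i j * x j)
  have h2 : KB W x (fun i => ∑ j, W i j * x j) = ∑ i, (∑ j, W i j * x j) ^ 2 := by
    rw [KB_symm W hW]
    unfold KB
    refine Finset.sum_congr rfl fun i _ => ?_
    rw [sq, Finset.mul_sum]
    refine Finset.sum_congr rfl fun j _ => ?_
    ring
  rw [h2] at h1
  have h3 : L * (L * ∑ i, x i ^ 2 + (∑ i, (∑ j, W i j * x j) ^ 2) / L) =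
      L ^ 2 * ∑ i, x i ^ 2 + ∑ i, (∑ j, W i j * x j) ^ 2 := by
    field_simp
  rw [h3] at h1
  linarith

/-- restriction of a vector to a set of coordinates -/
noncomputable def rst (U : Finset (Fin n)) (v : Fin n → ℝ) : Fin n → ℝ :=
  fun i => if i ∈ U then v i else 0

theorem rst_sq_le (U : Finset (Fin n)) (v : Fin n → ℝ) :
    ∑ i, rst U v i ^ 2 ≤ ∑ i, v i ^ 2 := by
  refine Finset.sum_le_sum fun i _ => ?_
  unfold rst
  split_ifs
  · exact le_rfl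
  · rw [zero_pow (by norm_num)]
    exact sq_nonneg _

theorem rst_sq (U : Finset (Fin n)) (v : Fin n → ℝ) :
    ∑ i, rst U v i ^ 2 = ∑ i ∈ U, v i ^ 2 := by
  unfold rst
  have h : ∀ i, (if i ∈ U then v i else 0) ^ 2 = if i ∈ U then v i ^ 2 else 0 := by
    intro i; split_ifs <;> simp
  rw [Finset.sum_congr rfl fun i _ => h i, Finset.sum_ite_mem, Finset.univ_inter]

/-- one sided net argument on a coordinate subspace -/
theorem KB_net (W : Matrix (Fin n) (Fin n) ℝ) (hW : W.IsSymm) (L δ c : ℝ) (hL0 : 0 ≤ L)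
    (hδ : 0 < δ) (hc : 0 ≤ c)
    (hL : ∀ v : Fin n → ℝ, |KB W v v| ≤ L * ∑ i, v i ^ 2) (m : ℕ) (N : Fin m → Fin n → ℝ)
    (hN : ∀ k, ∑ i, N k i ^ 2 = 1)
    (hnet : ∀ v : Fin n → ℝ, ∑ i, v i ^ 2 = 1 → ∃ k, ∑ i, (v i - N k i) ^ 2 ≤ δ ^ 2)
    (U : Finset (Fin n)) (h : ∀ k, KB W (rst U (N k)) (rst U (N k)) ≤ c)
    (v : Fin n → ℝ) (hv : ∀ i, i ∉ U → v i = 0) :
    KB W v v ≤ (c + 2 * L * δ + L * δ ^ 2) * ∑ i, v i ^ 2 := by
  by_cases h0 : ∑ i, v i ^ 2 = 0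
  · have hz := (abs_le.1 (hL v)).2
    rw [h0] at hz ⊢
    linarith
  have hpos : 0 < ∑ i, v i ^ 2 :=
    lt_of_le_of_ne (Finset.sum_nonneg fun _ _ => sq_nonneg _) (Ne.symm h0)
  set R : ℝ := Real.sqrt (∑ i, v i ^ 2) with hR
  have hR0 : 0 < R := Real.sqrt_pos.2 hpos
  have hR2 : R ^ 2 = ∑ i, v i ^ 2 := Real.sq_sqrt hpos.le
  set w : Fin n → ℝ := fun i => R⁻¹ * v i with hw
  have hw1 : ∑ i, w i ^ 2 = 1 := by
    simp only [hw, mul_pow]
    rw [← Finset.mul_sum, ← hR2, inv_pow]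
    exact inv_mul_cancel₀ (pow_pos hR0 2).ne'
  obtain ⟨k, hk⟩ := hnet w hw1
  have hd : ∑ i, (w i - rst U (N k) i) ^ 2 ≤ δ ^ 2 := by
    refine le_trans (Finset.sum_le_sum fun i _ => ?_) hk
    unfold rst
    split_ifs with hi
    · exact le_rfl
    · have : w i = 0 := by simp only [hw]; rw [hv i hi, mul_zero]
      rw [this]
      simp
      exact sq_nonneg _
  have hu : ∑ i, rst U (N k) i ^ 2 ≤ 1 := by
    rw [← hN k]
    exact rst_sq_le U (N k)
  have e1 := KB_add W hW (rst U (N k)) (fun i => w i - rst U (N k) i)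
  have e2 : (fun i => rst U (N k) i + (w i - rst U (N k) i)) = w := by
    funext i; ring
  rw [e2] at e1
  have e3 := KB_cross W hW L hL δ hδ (rst U (N k)) (fun i => w i - rst U (N k) i)
  have e4 := (abs_le.1 (hL (fun i => w i - rst U (N k) i))).2
  have e5 : L * (δ * ∑ i, rst U (N k) i ^ 2 + (∑ i, (w i - rst U (N k) i) ^ 2) / δ) ≤
      L * (δ * 1 + δ ^ 2 / δ) := by
    apply mul_le_mul_of_nonneg_left _ hL0
    apply add_le_add
    · exact mul_le_mul_of_nonneg_left hu hδ.le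
    · exact div_le_div_of_nonneg_right hd hδ.le
  have e6 : δ ^ 2 / δ = δ := by field_simp
  rw [e6] at e5
  have e7 : L * ∑ i, (w i - rst U (N k) i) ^ 2 ≤ L * δ ^ 2 := mul_le_mul_of_nonneg_left hd hL0
  have e8 : KB W w w ≤ c + 2 * L * δ + L * δ ^ 2 := by
    have := h k
    linarith
  have e9 : KB W v v = R ^ 2 * KB W w w := by
    have : v = fun i => R * w i := by
      funext i
      simp only [hw]
      rw [← mul_assoc, mul_inv_cancel₀ hR0.ne', one_mul]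
    rw [this, KB_smul_left, KB_symm W hW, KB_smul_left]
    ring
  rw [e9, ← hR2, mul_comm]
  exact mul_le_mul_of_nonneg_right e8 (sq_nonneg R)

end SKG
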