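import Pool.Agent.Lib.MP_c42713_prH.HMix

/-!
# From the Poincare inequality (with clipped fields) to mixing in `O(n^3)` steps
-/

namespace SKG

variable {n : ℕ}

theorem mixK (M : ℝ) (hM : 1 ≤ M) (K : ℕ) (hK : 5 * M ≤ K) : ∃ n0 : ℕ, ∀ n : ℕ, n0 ≤ n →
    ∀ J : Matrix (Fin n) (Fin n) ℝ, J.IsSymm → (∀ i, ∑ j, |J i j| ≤ (n : ℝ) / 2) →
    ∀ h : Fin n → ℝ, (∀ (f : Conf n → ℝ),
      FS (gibbs J (clip n h)) Finset.univ f ≤ M * ∑ i, FS (gibbs J (clip n h)) {i} f) →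
    MixLE J h ((K : ℝ) * (n : ℝ) ^ 3) := by
  obtain ⟨n0, hn0⟩ := mix_numH M hM K hK
  refine ⟨max n0 1, fun n hn J hsym e2 h hP => ?_⟩
  have hnpos : 0 < n := lt_of_lt_of_le Nat.zero_lt_one (le_trans (le_max_right _ _) hn)
  have hn2 : n0 ≤ n := le_trans (le_max_left _ _) hn
  refine ⟨K * n ^ 3, by push_cast; exact le_rfl, fun x => ?_⟩
  obtain ⟨h', hh'⟩ : ∃ h', h' = clip (n : ℝ) h := ⟨_, rfl⟩
  have hclip : ∀ i, |h' i| ≤ n := by
    intro i
    rw [hh', abs_le]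
    unfold clip
    have hnn : (0 : ℝ) ≤ n := by positivity
    exact ⟨le_max_left _ _, max_le (by linarith) (min_le_right _ _)⟩
  have hP' : ∀ (f : Conf n → ℝ),
      FS (gibbs J h') Finset.univ f ≤ M * ∑ i, FS (gibbs J h') {i} f := by
    rw [hh']
    exact hP
  have hgap := fun (x : Conf n) => tv_gap hnpos (gibbs_pos J h') (gibbs_sum J h') M hM
    hP' (K * n ^ 3) x
  have hnum := fun (x : Conf n) => hn0 n hn2 (gibbs J h' x) (gibbs_min J h' e2 hclip x)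
  have hη : ∀ x, tv ((glauber (gibbs J h') ^ (K * n ^ 3)) x) (gibbs J h') ≤ 1 / 16 :=
    fun x => le_trans (hgap x) (hnum x).1
  have hker : ∀ x : Conf n, ∑ y, |glauber (gibbs J h) x y - glauber (gibbs J h') x y| ≤
      2 * Real.exp (-n) := by
    rw [hh']
    exact kernel_clip hnpos J hsym h e2
  have hst := stat_compare (glauber (gibbs J h)) (glauber (gibbs J h'))
    (glauber_nonneg (gibbs_pos _ _)) (glauber_row hnpos (gibbs_pos _ _))
    (glauber_nonneg (gibbs_pos _ _)) (glauber_row hnpos (gibbs_pos _ _))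
    (gibbs J h) (gibbs J h') (fun x => (gibbs_pos _ _ x).le) (gibbs_sum _ _)
    (glauber_stat hnpos (gibbs_pos _ _)) (Real.exp (-n)) (1 / 16)
    hker (K * n ^ 3) hη x
  have h9 := (hnum x).2
  refine le_trans hst ?_
  have h10 : 2 * ((K * n ^ 3 : ℕ) : ℝ) * Real.exp (-n) =
      2 * (((K * n ^ 3 : ℕ) : ℝ) * Real.exp (-n)) := by ring
  rw [h10]
  linarith

end SKG
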