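import Pool.Agent.Lib.MP_c42713_prK.KSpec

/-!
# The rows of GOE restricted to small enlargements of a given set
-/

namespace SKG

open MeasureTheory ProbabilityTheory Filter Topology

private def KRow_e {n : ℕ} (j k : Fin n) : Fin n × Fin n := if j < k then (j, k) else (k, j)

private theorem KRow_e_inj {n : ℕ} (j : Fin n) : Function.Injective (KRow_e j) := by
  intro k l h
  unfold KRow_e at h
  split_ifs at h with h1 h2 h2
  · exact (Prod.mk.inj h).2
  · have h3 := (Prod.mk.inj h).2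
    rw [h3] at h1
    exact absurd h1 (lt_irrefl j)
  · have h3 := (Prod.mk.inj h).2
    rw [← h3] at h2
    exact absurd h2 (lt_irrefl j)
  · exact (Prod.mk.inj h).1

private noncomputable def KRow_d {n : ℕ} (j k : Fin n) : ℝ := if k = j then 2 else 1

private theorem KRow_sum_d {n : ℕ} (j : Fin n) (U : Finset (Fin n)) :
    ∑ k ∈ U, KRow_d j k ≤ U.card + 1 := by
  have h1 : ∀ k, KRow_d j k = 1 + if k = j then (1 : ℝ) else 0 := by
    intro k
    unfold KRow_d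
    split_ifs <;> norm_num
  rw [Finset.sum_congr rfl fun k _ => h1 k, Finset.sum_add_distrib]
  have h2 : ∑ k ∈ U, (if k = j then (1 : ℝ) else 0) ≤ 1 := by
    rw [Finset.sum_ite_eq' U j]
    split_ifs <;> norm_num
  have h3 : ∑ _k ∈ U, (1 : ℝ) = U.card := by simp
  rw [h3]
  linarith

private theorem KRow_goe {n : ℕ} (hn : 0 < n) (g : Smp n) (j k : Fin n) :
    (n : ℝ) * goe n g j k ^ 2 = KRow_d j k * g (KRow_e j k) ^ 2 := by
  have hn' : (0 : ℝ) < n := by exact_mod_cast hn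
  have hs : Real.sqrt n ^ 2 = (n : ℝ) := Real.sq_sqrt hn'.le
  have hs2 : Real.sqrt (2 / n) ^ 2 = 2 / (n : ℝ) := Real.sq_sqrt (by positivity)
  unfold goe KRow_d KRow_e
  by_cases h : j = k
  · subst h
    rw [if_pos rfl, if_pos rfl, if_neg (lt_irrefl j), mul_pow, hs2]
    field_simp
  · have hkj : ¬ k = j := fun h' => h h'.symm
    rw [if_neg h, if_neg hkj]
    by_cases h1 : j < k
    · rw [if_pos h1, if_pos h1, div_pow, hs]
      field_simp
    · rw [if_neg h1, if_neg h1, div_pow, hs]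
      field_simp

private theorem KRow_tendsto {c : ℝ} (hc : 0 < c) :
    Tendsto (fun n : ℕ => (n : ENNReal) * ENNReal.ofReal (Real.exp (1 - c * n))) atTop (𝓝 0) := by
  have h1 : Tendsto (fun x : ℝ => x ^ 1 * Real.exp (-x)) atTop (𝓝 0) :=
    Real.tendsto_pow_mul_exp_neg_atTop_nhds_zero 1
  have h2 : Tendsto (fun n : ℕ => c * (n : ℝ)) atTop atTop :=
    tendsto_natCast_atTop_atTop.const_mul_atTop hc
  have h3 := (h1.comp h2).const_mul (Real.exp 1 / c)
  rw [mul_zero] at h3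
  have h4 : (fun n : ℕ => Real.exp 1 / c * ((fun x : ℝ => x ^ 1 * Real.exp (-x))
      ∘ fun n : ℕ => c * (n : ℝ)) n) = fun n : ℕ => (n : ℝ) * Real.exp (1 - c * n) := by
    funext n
    simp only [Function.comp, pow_one]
    rw [sub_eq_add_neg, Real.exp_add]
    field_simp
  rw [h4] at h3
  have h5 := ENNReal.tendsto_ofReal h3
  rw [ENNReal.ofReal_zero] at h5
  refine h5.congr fun n => ?_
  rw [ENNReal.ofReal_mul (Nat.cast_nonneg n), ENNReal.ofReal_natCast]

theorem goe_subrows (a ε θ : ℝ) (ha1 : a ≤ 1) (hε : 0 < ε) (hε1 : ε ≤ 1)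
    (hθ0 : 0 ≤ θ) (hθ : θ ≤ (kl ε * ε / 4) ^ 2 / 4) :
    ∃ p : ℕ → ENNReal, Tendsto p atTop (𝓝 0) ∧ ∀ n, 4 ≤ n → ∀ S : Finset (Fin n),
      (S.card : ℝ) ≤ a * n →
      gauss n {g | ¬ ∀ T ∈ smallSets n θ, ∀ j, ∑ k ∈ S ∪ T, goe n g j k ^ 2 ≤ a + ε} ≤ p n := by
  classical
  have hl := kl_pos hε
  refine ⟨fun n => (n : ENNReal) * ENNReal.ofReal (Real.exp (1 - kl ε * ε / 4 * n)),
    KRow_tendsto (by positivity), ?_⟩
  intro n hn S hS
  have hn0 : 0 < n := by omega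
  have hn' : (0 : ℝ) < n := by exact_mod_cast hn0
  have hj : ∀ j : Fin n, gauss n {g | ∃ T ∈ smallSets n θ,
      (a + ε) * n ≤ ∑ k ∈ S ∪ T, KRow_d j k * g (KRow_e j k) ^ 2} ≤
      ENNReal.ofReal (Real.exp (1 - kl ε * ε / 4 * n)) := by
    intro j
    rw [gauss_eq]
    refine KCh_all S (KRow_e j) (KRow_e_inj j) (KRow_d j) ?_ ?_ (KRow_sum_d j) a ε θ ha1 hε hε1 hS
      hθ0 hθ
    · intro k
      unfold KRow_d
      split_ifs <;> norm_num
    · intro k
      unfold KRow_d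
      split_ifs <;> norm_num
  have hsub : {g : Smp n | ¬ ∀ T ∈ smallSets n θ, ∀ j, ∑ k ∈ S ∪ T, goe n g j k ^ 2 ≤ a + ε} ⊆
      ⋃ j ∈ (Finset.univ : Finset (Fin n)), {g | ∃ T ∈ smallSets n θ,
        (a + ε) * n ≤ ∑ k ∈ S ∪ T, KRow_d j k * g (KRow_e j k) ^ 2} := by
    intro g hg
    simp only [Set.mem_ofPred_eq, not_forall, not_le] at hg
    obtain ⟨T, hT, j, hj⟩ := hg
    simp only [Set.mem_iUnion]
    refine ⟨j, Finset.mem_univ _, T, hT, ?_⟩
    rw [Finset.sum_congr rfl fun k _ => (KRow_goe hn0 g j k).symm, ← Finset.mul_sum, mul_comm]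
    exact mul_le_mul_of_nonneg_left hj.le hn'.le
  calc _ ≤ _ := measure_mono hsub
    _ ≤ ∑ j : Fin n, gauss n {g | ∃ T ∈ smallSets n θ,
        (a + ε) * n ≤ ∑ k ∈ S ∪ T, KRow_d j k * g (KRow_e j k) ^ 2} :=
        measure_biUnion_finset_le _ _
    _ ≤ ∑ _j : Fin n, ENNReal.ofReal (Real.exp (1 - kl ε * ε / 4 * n)) :=
        Finset.sum_le_sum fun j _ => hj j
    _ = (n : ENNReal) * ENNReal.ofReal (Real.exp (1 - kl ε * ε / 4 * n)) := by
        rw [Finset.sum_const, Finset.card_univ, Fintype.card_fin, nsmul_eq_mul]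

end SKG
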