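import Pool.Agent.Lib.MP_c42713_prK.KDet
import Pool.Agent.Lib.MP_c42713_prK.KRow
import Pool.Agent.Lib.MP_c42713_prK.KMix
import Pool.Agent.Lib.MP_c42713_prH.HEnt

/-!
# The final theorem for fields which are strong outside a set of `a n` sites, `2 β √a < 1`
-/

namespace SKG

open MeasureTheory ProbabilityTheory Filter Topology

/-- measurability of the deterministic properties -/
theorem goodS_meas (n : ℕ) (S : Finset (Fin n)) (a θ ε : ℝ) :
    MeasurableSet {g : Smp n | GoodS (goe n g) S a θ ε} := by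
  have h : {g : Smp n | GoodS (goe n g) S a θ ε} =
      {g : Smp n | ∀ T ∈ smallSets n θ, ∀ v : Fin n → ℝ, (∀ i, i ∉ S ∪ T → v i = 0) →
        KB (goe n g) v v ≤ (2 * Real.sqrt a + ε) * ∑ i, v i ^ 2} ∩
      {g : Smp n | ∀ T ∈ smallSets n θ, ∀ j, ∑ k ∈ S ∪ T, goe n g j k ^ 2 ≤ a + ε} := by
    ext g
    exact ⟨fun h => ⟨h.spec, h.row⟩, fun h => ⟨h.1, h.2⟩⟩
  rw [h]
  refine MeasurableSet.inter (IsClosed.measurableSet ?_) (IsClosed.measurableSet ?_)
  · simp only [Set.ofPred_forall]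
    refine isClosed_iInter fun T => isClosed_iInter fun _ => isClosed_iInter fun v =>
      isClosed_iInter fun _ => ?_
    refine isClosed_le ?_ continuous_const
    unfold KB
    exact continuous_finsetSum _ fun i _ => continuous_finsetSum _ fun j _ =>
      ((RGood_cont n i j).mul continuous_const).mul continuous_const
  · simp only [Set.ofPred_forall]
    refine isClosed_iInter fun T => isClosed_iInter fun _ => isClosed_iInter fun j => ?_
    refine isClosed_le ?_ continuous_const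
    exact continuous_finsetSum _ fun k _ => (RGood_cont n j k).pow 2

/-- the good event has probability tending to one -/
theorem goodS_prob (a ε θ : ℝ) (ha0 : 0 ≤ a) (ha1 : a ≤ 1) (hε : 0 < ε) (hε1 : ε ≤ 1)
    (hθ0 : 0 ≤ θ) (hθ1 : θ ≤ thk (ε / 2)) (hθ2 : θ ≤ (kl ε * ε / 4) ^ 2 / 4)
    (S : ∀ n, Finset (Fin n)) (hS : ∀ n, ((S n).card : ℝ) ≤ a * n) :
    Tendsto (fun n => gauss n {g | (Good (goe n g) ε ∧ ∀ i j, |goe n g i j| ≤ ε) ∧
      GoodS (goe n g) (S n) a θ ε}) atTop (𝓝 1) := by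
  obtain ⟨p, hp, hpn⟩ := goe_sparse a ε θ ha0 ha1 hε hε1 hθ0 hθ1
  obtain ⟨q, hq, hqn⟩ := goe_subrows a ε θ ha1 hε hε1 hθ0 hθ2
  have hG := good_prob' ε hε
  have hlow : Tendsto (fun n => gauss n {g | Good (goe n g) ε ∧ ∀ i j, |goe n g i j| ≤ ε} -
      (p n + q n)) atTop (𝓝 (1 : ENNReal)) := by
    have h1 := ENNReal.Tendsto.sub hG (hp.add hq) (Or.inl ENNReal.one_ne_top)
    simpa using h1
  refine tendsto_of_tendsto_of_tendsto_of_le_of_le' hlow tendsto_const_nhds ?_ ?_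
  · filter_upwards [eventually_ge_atTop 4] with n hn
    have h1 : gauss n {g | Good (goe n g) ε ∧ ∀ i j, |goe n g i j| ≤ ε} ≤
        gauss n {g | (Good (goe n g) ε ∧ ∀ i j, |goe n g i j| ≤ ε) ∧
          GoodS (goe n g) (S n) a θ ε} + (p n + q n) := by
      have hsub : {g : Smp n | Good (goe n g) ε ∧ ∀ i j, |goe n g i j| ≤ ε} ⊆
          {g | (Good (goe n g) ε ∧ ∀ i j, |goe n g i j| ≤ ε) ∧ GoodS (goe n g) (S n) a θ ε} ∪
          ({g | ¬ ∀ T ∈ smallSets n θ, ∀ v : Fin n → ℝ, (∀ i, i ∉ S n ∪ T → v i = 0) →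
            KB (goe n g) v v ≤ (2 * Real.sqrt a + ε) * ∑ i, v i ^ 2} ∪
          {g | ¬ ∀ T ∈ smallSets n θ, ∀ j, ∑ k ∈ S n ∪ T, goe n g j k ^ 2 ≤ a + ε}) := by
        intro g hg
        by_cases h2 : GoodS (goe n g) (S n) a θ ε
        · exact Or.inl ⟨hg, h2⟩
        · right
          by_contra hc
          rw [Set.mem_union, not_or] at hc
          exact h2 ⟨not_not.1 hc.1, not_not.1 hc.2⟩
      calc _ ≤ _ := measure_mono hsub
        _ ≤ _ := measure_union_le _ _
        _ ≤ _ := add_le_add le_rfl ((measure_union_le _ _).trans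
            (add_le_add (hpn n hn (S n) (hS n)) (hqn n hn (S n) (hS n))))
    exact tsub_le_iff_right.2 h1
  · exact Eventually.of_forall fun n => prob_le_one

theorem weak_clip {n : ℕ} (S : Finset (Fin n)) (K R : ℝ) (hKR : K ≤ R) (h : Fin n → ℝ) :
    weakSites S K (clip R h) ⊆ weakSites S K h := by
  intro i hi
  unfold weakSites at hi ⊢
  rw [Finset.mem_filter] at hi ⊢
  refine ⟨hi.1, hi.2.1, ?_⟩
  have h1 := hi.2.2
  by_contra hc
  rw [not_lt] at hc
  have h2 : K ≤ |clip R h i| := by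
    unfold clip
    rcases le_total 0 (h i) with h3 | h3
    · rw [abs_of_nonneg h3] at hc
      exact le_trans (le_trans (le_min hc hKR) (le_max_right _ _)) (le_abs_self _)
    · rw [abs_of_nonpos h3] at hc
      have h4 : max (-R) (min (h i) R) ≤ -K :=
        max_le (by linarith) ((min_le_left _ _).trans (by linarith))
      refine le_trans ?_ (neg_le_abs _)
      linarith
  linarith

private theorem KMain_row {n : ℕ} (β ε : ℝ) (h1 : ε ≤ 1)
    (hn : 8 * β ^ 2 ≤ n) (W : Matrix (Fin n) (Fin n) ℝ) (hW : Good W ε) (i : Fin n) :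
    ∑ j, |(β • W) i j| ≤ (n : ℝ) / 2 := by
  have e : ∑ k, ((β • W) i k) ^ 2 = β ^ 2 * ∑ k, W i k ^ 2 := by
    rw [Finset.mul_sum]; refine Finset.sum_congr rfl fun k _ => ?_
    simp [Matrix.smul_apply, mul_pow]
  have a2 := (abs_le.1 (hW.sq i)).2
  have a3 : ∑ k, W i k ^ 2 ≤ 2 := by linarith
  have a6 : ∑ k, ((β • W) i k) ^ 2 ≤ β ^ 2 * 2 := by
    rw [e]
    exact mul_le_mul_of_nonneg_left a3 (sq_nonneg β)
  have hcs : (∑ j, |(β • W) i j|) ^ 2 ≤ n * ∑ j, ((β • W) i j) ^ 2 := by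
    have := sq_sum_le_card_mul_sum_sq (s := (Finset.univ : Finset (Fin n))) (f := fun j => |(β • W) i j|)
    simp only [sq_abs, Finset.card_univ, Fintype.card_fin] at this
    exact this
  have h0' : 0 ≤ ∑ j, |(β • W) i j| := Finset.sum_nonneg fun _ _ => abs_nonneg _
  have hn0 : (0 : ℝ) ≤ n := Nat.cast_nonneg n
  have h4 : (∑ j, |(β • W) i j|) ^ 2 ≤ ((n : ℝ) / 2) ^ 2 := by
    calc (∑ j, |(β • W) i j|) ^ 2 ≤ n * ∑ j, ((β • W) i j) ^ 2 := hcs
      _ ≤ n * (β ^ 2 * 2) := mul_le_mul_of_nonneg_left a6 hn0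
      _ ≤ ((n : ℝ) / 2) ^ 2 := by nlinarith
  exact (pow_le_pow_iff_left₀ h0' (by positivity) (by norm_num)).1 h4

/-- the choice of the parameters -/
private theorem KMain_par (β a δ : ℝ) (hβ : 0 < β) (ha : 0 < a)
    (h2 : 2 * β * Real.sqrt a < 1) (hδ : 0 < δ) :
    ∃ ε κ γ : ℝ, 0 < ε ∧ ε ≤ 1 ∧ 0 < κ ∧ κ ≤ 1 ∧ 0 < γ ∧ γ ≤ 1 ∧ β * ε ≤ 1 / 20 ∧
      2 * (β ^ 2 * (a + ε)) ≤ β * (2 * Real.sqrt a + 2 * ε) ∧
      1 - 2 * β * Real.sqrt a - δ ≤ γ ∧
      γ ≤ 1 - (β * (2 * Real.sqrt a + 2 * ε) + 3 * κ * (β * (2 + 2 * ε)) +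
      2 * κ * (β ^ 2 * (1 + ε))) - 80 * (β ^ 2 * (1 + ε)) * (β * ε) := by
  set b : ℝ := Real.sqrt a with hb
  have hb0 : 0 < b := Real.sqrt_pos.2 ha
  have hb2 : b ^ 2 = a := Real.sq_sqrt ha.le
  set d : ℝ := min δ ((1 - 2 * β * b) / 2) with hd
  have hd0 : 0 < d := lt_min hδ (by linarith)
  have hd1 : d ≤ δ := min_le_left _ _
  have hd2 : d ≤ (1 - 2 * β * b) / 2 := min_le_right _ _
  set c1 : ℝ := 2 * (2 * β + 160 * β ^ 3) with hc1
  set c2 : ℝ := 2 * (12 * β + 4 * β ^ 2) with hc2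
  have hc10 : 0 < c1 := by rw [hc1]; positivity
  have hc20 : 0 < c2 := by rw [hc2]; positivity
  set ε : ℝ := min (min 1 (1 / (20 * β))) (min (b / (2 * β)) (d / c1)) with hε
  set κ : ℝ := min 1 (d / c2) with hκ
  have hε0 : 0 < ε := lt_min (lt_min one_pos (by positivity)) (lt_min (by positivity) (by positivity))
  have hκ0 : 0 < κ := lt_min one_pos (by positivity)
  have e1 : ε ≤ 1 := (min_le_left _ _).trans (min_le_left _ _)
  have e2 : ε ≤ 1 / (20 * β) := (min_le_left _ _).trans (min_le_right _ _)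
  have e3 : ε ≤ b / (2 * β) := (min_le_right _ _).trans (min_le_left _ _)
  have e4 : ε ≤ d / c1 := (min_le_right _ _).trans (min_le_right _ _)
  have k1 : κ ≤ 1 := min_le_left _ _
  have k2 : κ ≤ d / c2 := min_le_right _ _
  rw [le_div_iff₀ (by positivity)] at e2 e3 e4 k2
  refine ⟨ε, κ, 1 - 2 * β * b - d, hε0, e1, hκ0, k1, by linarith, ?_, by linarith, ?_,
    by linarith, ?_⟩
  · have : 0 < β * b := mul_pos hβ hb0
    linarith
  · have g1 : β * b ≤ 1 / 2 := by linarith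
    have g2 : (β * b) ^ 2 ≤ 1 / 2 * (β * b) := by
      have : 0 < β * b := mul_pos hβ hb0
      nlinarith
    have g3 : β ^ 2 * a = (β * b) ^ 2 := by rw [← hb2]; ring
    have g4 : β * (ε * (2 * β)) ≤ β * b := mul_le_mul_of_nonneg_left e3 hβ.le
    have g5 : 0 < β * ε := mul_pos hβ hε0
    have g6 : 2 * (β ^ 2 * (a + ε)) = 2 * (β ^ 2 * a) + β * (ε * (2 * β)) := by ring
    rw [g6, g3]
    linarith
  · have t1 : 3 * κ * (β * (2 + 2 * ε)) ≤ 12 * β * κ := by
      have := mul_pos hκ0 hβ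
      nlinarith
    have t2 : 2 * κ * (β ^ 2 * (1 + ε)) ≤ 4 * β ^ 2 * κ := by
      have : 0 < κ * β ^ 2 := by positivity
      nlinarith
    have t3 : 80 * (β ^ 2 * (1 + ε)) * (β * ε) ≤ 160 * β ^ 3 * ε := by
      have : 0 < β ^ 3 * ε := by positivity
      nlinarith
    have t4 : 2 * β * ε + 160 * β ^ 3 * ε ≤ d / 2 := by
      have : ε * c1 = 2 * (2 * β * ε + 160 * β ^ 3 * ε) := by rw [hc1]; ring
      linarith
    have t5 : 12 * β * κ + 4 * β ^ 2 * κ ≤ d / 2 := by
      have : κ * c2 = 2 * (12 * β * κ + 4 * β ^ 2 * κ) := by rw [hc2]; ring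
      linarith
    linarith

theorem main_strong (β a δ : ℝ) (hβ : 0 < β) (ha : 0 < a) (ha1 : a ≤ 1)
    (h2 : 2 * β * Real.sqrt a < 1) (hδ : 0 < δ) :
    ∃ (K θ : ℝ) (N : ℕ), 0 < K ∧ 0 < θ ∧
      ∀ S : ∀ n, Finset (Fin n), (∀ n, ((S n).card : ℝ) ≤ a * n) →
      ∃ A : ∀ n, Set (Smp n), (∀ n, MeasurableSet (A n)) ∧
        Tendsto (fun n => gauss n (A n)) atTop (𝓝 1) ∧
        ∀ n, ∀ g ∈ A n, ∀ h : Fin n → ℝ, ((weakSites (S n) K h).card : ℝ) ≤ θ * n →
          (∀ f : Conf n → ℝ, (1 - 2 * β * Real.sqrt a - δ) *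
              FS (gibbs (β • goe n g) h) Finset.univ f ≤
            ∑ i, FS (gibbs (β • goe n g) h) {i} f) ∧
          MixLE (β • goe n g) h (N * (n : ℝ) ^ 3) := by
  obtain ⟨ε, κ, γ, hε0, hε1, hκ0, hκ1, hγ0, hγ1, hβε, hcΛ, hγδ, hγ⟩ := KMain_par β a δ hβ ha h2 hδ
  set θ : ℝ := min (thk (ε / 2)) ((kl ε * ε / 4) ^ 2 / 4) with hθ
  have hθ0 : 0 < θ := by
    have h1 := kl_pos hε0
    exact lt_min (thk_pos (by linarith)) (by positivity)
  set L : ℝ := β * (2 + 2 * ε) with hL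
  have hL0 : 0 < L := by rw [hL]; positivity
  set K : ℝ := 2 / κ + 8 * L ^ 2 / θ + 1 with hK
  have hK1 : 1 ≤ K := by
    rw [hK]
    have : 0 < 2 / κ + 8 * L ^ 2 / θ := by positivity
    linarith
  have hK0 : 0 < K := by linarith
  have hKκ : 2 ≤ K * κ := by
    have h1 : 2 / κ ≤ K := by
      rw [hK]
      have : 0 < 8 * L ^ 2 / θ := by positivity
      linarith
    rwa [div_le_iff₀ hκ0] at h1
  have hKθ : 8 * (β * (2 + 2 * ε)) ^ 2 ≤ K ^ 2 * θ := by
    have h1 : 8 * L ^ 2 / θ ≤ K := by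
      rw [hK]
      have : 0 < 2 / κ := by positivity
      linarith
    rw [div_le_iff₀ hθ0] at h1
    have h3 : K * θ ≤ K ^ 2 * θ := by
      apply mul_le_mul_of_nonneg_right _ hθ0.le
      nlinarith
    rw [← hL]
    linarith
  set M : ℝ := 1 / γ with hM
  have hM1 : 1 ≤ M := by
    rw [hM, le_div_iff₀ hγ0]; linarith
  obtain ⟨n0, hn0⟩ := mixK M hM1 ⌈5 * M⌉₊ (Nat.le_ceil _)
  refine ⟨K, θ / 2, ⌈5 * M⌉₊, hK0, by linarith, fun S hS => ?_⟩
  set m : ℕ := max n0 (max ⌈8 * β ^ 2⌉₊ ⌈K⌉₊) with hm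
  refine ⟨fun n => if m ≤ n then
    {g | (Good (goe n g) ε ∧ ∀ i j, |goe n g i j| ≤ ε) ∧ GoodS (goe n g) (S n) a θ ε} else ∅,
    fun n => ?_, ?_, fun n g hg h hh => ?_⟩
  · by_cases hn : m ≤ n
    · simp only [hn, if_true]
      exact (good_meas' n ε).inter (goodS_meas n (S n) a θ ε)
    · simp only [hn, if_false]; exact MeasurableSet.empty
  · refine (goodS_prob a ε θ ha.le ha1 hε0 hε1 hθ0.le (min_le_left _ _) (min_le_right _ _)
      S hS).congr' ?_
    filter_upwards [eventually_ge_atTop m] with n hn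
    simp only [hn, if_true]
  · by_cases hn : m ≤ n
    · simp only [hn, if_true, Set.mem_ofPred_eq] at hg
      obtain ⟨⟨hG, hE⟩, hGS⟩ := hg
      have hn1 : n0 ≤ n := le_trans (le_max_left _ _) hn
      have hn2 : 8 * β ^ 2 ≤ (n : ℝ) := by
        have : ⌈8 * β ^ 2⌉₊ ≤ n := le_trans (le_trans (le_max_left _ _) (le_max_right _ _)) hn
        exact le_trans (Nat.le_ceil _) (by exact_mod_cast this)
      have hn3 : K ≤ (n : ℝ) := by
        have : ⌈K⌉₊ ≤ n := le_trans (le_trans (le_max_right _ _) (le_max_right _ _)) hn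
        exact le_trans (Nat.le_ceil _) (by exact_mod_cast this)
      have hgap : ∀ h' : Fin n → ℝ, ((weakSites (S n) K h').card : ℝ) ≤ θ / 2 * n →
          ∀ f : Conf n → ℝ, γ * FS (gibbs (β • goe n g) h') Finset.univ f ≤
            ∑ i, FS (gibbs (β • goe n g) h') {i} f := fun h' hh' f =>
        det_gap β ε a θ κ K hβ hε0 ha.le (goe n g) hG hE hβε (S n) hGS hκ0 hκ1 hK0 hKκ hKθ hcΛ
          γ hγ0 hγ h' hh' f
      have hsym : (β • goe n g).IsSymm := by
        have := hG.symm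
        unfold Matrix.IsSymm at this ⊢
        rw [Matrix.transpose_smul, this]
      have hFS : ∀ (h' : Fin n → ℝ) (f : Conf n → ℝ),
          0 ≤ FS (gibbs (β • goe n g) h') Finset.univ f := by
        intro h' f
        unfold FS
        exact Finset.sum_nonneg fun x _ => mul_nonneg (gibbs_pos _ h' x).le (sq_nonneg _)
      refine ⟨fun f => ?_, ?_⟩
      · refine le_trans (mul_le_mul_of_nonneg_right hγδ (hFS h f)) (hgap h hh f)
      · refine hn0 n hn1 (β • goe n g) hsym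
          (fun i => KMain_row β ε hε1 hn2 _ hG i) h ?_
        intro f
        have hh' : ((weakSites (S n) K (clip n h)).card : ℝ) ≤ θ / 2 * n := by
          refine le_trans ?_ hh
          exact_mod_cast Finset.card_le_card (weak_clip (S n) K n hn3 h)
        have a1 := hgap (clip n h) hh' f
        have a4 : M * (γ * FS (gibbs (β • goe n g) (clip n h)) Finset.univ f) =
            FS (gibbs (β • goe n g) (clip n h)) Finset.univ f := by
          rw [hM]; field_simp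
        rw [← a4]
        exact mul_le_mul_of_nonneg_left a1 (by linarith)
    · simp only [hn, if_false] at hg
      exact absurd hg (Set.notMem_empty g)

theorem main_strong_seq (β a : ℝ) (hβ : 0 < β) (ha : 0 < a) (ha1 : a ≤ 1)
    (h2 : 2 * β * Real.sqrt a < 1) :
    ∃ K : ℝ, 0 < K ∧ ∀ h : ∀ n, Fin n → ℝ,
      (∀ᶠ n in atTop, ((Finset.univ.filter (fun i => |h n i| < K)).card : ℝ) ≤ a * n) →
      Tendsto (fun n => gauss n {g | MixLE (β • goe n g) (h n) ((n : ℝ) ^ 4)}) atTop (𝓝 1) := by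
  classical
  obtain ⟨K, θ, N, hK, hθ, hmain⟩ := main_strong β a 1 hβ ha ha1 h2 one_pos
  refine ⟨K, hK, fun h hh => ?_⟩
  obtain ⟨A, -, hA1, hA2⟩ := hmain (fun n =>
    if ((Finset.univ.filter (fun i => |h n i| < K)).card : ℝ) ≤ a * n then
      Finset.univ.filter (fun i => |h n i| < K) else ∅) (fun n => by
        by_cases hc : ((Finset.univ.filter (fun i => |h n i| < K)).card : ℝ) ≤ a * n
        · rw [if_pos hc]; exact hc
        · rw [if_neg hc]
          simp only [Finset.card_empty, Nat.cast_zero]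
          positivity)
  refine tendsto_of_tendsto_of_tendsto_of_le_of_le' hA1 tendsto_const_nhds ?_ ?_
  · filter_upwards [eventually_ge_atTop N, hh] with n hn hcn
    refine measure_mono fun g hg => ?_
    have hw : ((weakSites (if ((Finset.univ.filter (fun i => |h n i| < K)).card : ℝ) ≤ a * n then
        Finset.univ.filter (fun i => |h n i| < K) else ∅) K (h n)).card : ℝ) ≤ θ * n := by
      rw [if_pos hcn]
      have : weakSites (Finset.univ.filter (fun i => |h n i| < K)) K (h n) = ∅ := by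
        unfold weakSites
        rw [Finset.filter_eq_empty_iff]
        intro i _ hi
        apply hi.1
        rw [Finset.mem_filter]
        exact ⟨Finset.mem_univ _, hi.2⟩
      rw [this]
      simp only [Finset.card_empty, Nat.cast_zero]
      positivity
    obtain ⟨t, ht, hm⟩ := (hA2 n g hg (h n) hw).2
    refine ⟨t, le_trans ht ?_, hm⟩
    have hK' : (N : ℝ) ≤ n := by exact_mod_cast hn
    calc (N : ℝ) * (n : ℝ) ^ 3 ≤ n * (n : ℝ) ^ 3 := mul_le_mul_of_nonneg_right hK' (by positivity)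
      _ = (n : ℝ) ^ 4 := by ring
  · exact Eventually.of_forall fun n => by
      have : IsProbabilityMeasure (gauss n) := by unfold gauss; infer_instance
      exact prob_le_one

end SKG
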