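import Pool.Agent.Lib.MP_c42713_prK.KTwo
import Pool.Agent.Lib.MP_c42713_prH.HPair

/-!
# The pair inequality for the Gibbs measure, with the rank one second order term
-/

namespace SKG

/-- the summand with exponential weight -/
noncomputable def eK (a b J c1 c2 c12 x y : ℝ) : ℝ :=
  Real.exp (a * x + b * y + J * x * y) *
    ((x - Real.tanh (a + J * y)) * (y - Real.tanh (b + J * x)) * ((c1 + c12 * y) * (c2 + c12 * x)) +
    J * ((1 - Real.tanh (a + J * y) ^ 2) * (1 - Real.tanh (b + J * x) ^ 2) *
      ((c1 + c12 * y) * (c2 + c12 * x))) +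
    2 * J ^ 2 * (Real.tanh (a + J * y) * Real.tanh (b + J * x) *
      ((1 - Real.tanh (a + J * y) ^ 2) * (1 - Real.tanh (b + J * x) ^ 2) *
      ((c1 + c12 * y) * (c2 + c12 * x)))) +
    40 * |J| ^ 3 * ((1 - Real.tanh (a + J * y) ^ 2) * (c1 + c12 * y) ^ 2 +
      (1 - Real.tanh (b + J * x) ^ 2) * (c2 + c12 * x) ^ 2))

private theorem KExp_pt (E J X Y t1 t2 c x y : ℝ) (hE : 0 < E) (h1 : t1 ^ 2 < 1) (h2 : t2 ^ 2 < 1) :
    E * (((x - t1) * X) * ((y - t2) * Y)) -
      E * (-J * ((1 - t1 ^ 2) * X) * ((1 - t2 ^ 2) * Y)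
       - 2 * J ^ 2 * ((1 - t1 ^ 2) * (1 - t2 ^ 2)) * (t1 * t2 * (X * Y))
       + 1 / 2 * c ^ 2 * ((1 - t1 ^ 2) * (1 - t2 ^ 2))
       - 40 * |J| ^ 3 * ((1 - t1 ^ 2) * (1 - t2 ^ 2)) * (X ^ 2 + Y ^ 2)) ≤
    E * ((x - t1) * (y - t2) * (X * Y) + J * ((1 - t1 ^ 2) * (1 - t2 ^ 2) * (X * Y)) +
      2 * J ^ 2 * (t1 * t2 * ((1 - t1 ^ 2) * (1 - t2 ^ 2) * (X * Y))) +
      40 * |J| ^ 3 * ((1 - t1 ^ 2) * X ^ 2 + (1 - t2 ^ 2) * Y ^ 2)) := by
  have a1 : 0 ≤ 1 - t1 ^ 2 := by linarith
  have a2 : 0 ≤ 1 - t2 ^ 2 := by linarith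
  have k3 : 0 ≤ 40 * |J| ^ 3 * ((1 - t1 ^ 2) * X ^ 2 * t2 ^ 2) := by positivity
  have k4 : 0 ≤ 40 * |J| ^ 3 * ((1 - t2 ^ 2) * Y ^ 2 * t1 ^ 2) := by positivity
  have k5 : 0 ≤ 1 / 2 * c ^ 2 * ((1 - t1 ^ 2) * (1 - t2 ^ 2)) := by positivity
  rw [← mul_sub]
  apply mul_le_mul_of_nonneg_left _ hE.le
  linarith

theorem two_spin_expK (a b J c1 c2 c12 : ℝ) (hJ : |J| ≤ 1 / 20) :
    0 ≤ eK a b J c1 c2 c12 1 1 + eK a b J c1 c2 c12 1 (-1) + eK a b J c1 c2 c12 (-1) 1 +
      eK a b J c1 c2 c12 (-1) (-1) := by
  have h := two_spin_K a b J c1 c2 c12 hJ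
  unfold S4 at h
  have p : ∀ x y : ℝ, Real.exp (J * x * y + a * x + b * y) *
      (((x - Real.tanh (a + J * y)) * (c1 + c12 * y)) * ((y - Real.tanh (b + J * x)) * (c2 + c12 * x))) -
      Real.exp (J * x * y + a * x + b * y) *
      (-J * ((1 - Real.tanh (a + J * y) ^ 2) * (c1 + c12 * y)) *
        ((1 - Real.tanh (b + J * x) ^ 2) * (c2 + c12 * x))
       - 2 * J ^ 2 * ((1 - Real.tanh (a + J * y) ^ 2) * (1 - Real.tanh (b + J * x) ^ 2)) *
          (Real.tanh (a + J * y) * Real.tanh (b + J * x) * ((c1 + c12 * y) * (c2 + c12 * x)))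
       + 1 / 2 * c12 ^ 2 * ((1 - Real.tanh (a + J * y) ^ 2) * (1 - Real.tanh (b + J * x) ^ 2))
       - 40 * |J| ^ 3 * ((1 - Real.tanh (a + J * y) ^ 2) * (1 - Real.tanh (b + J * x) ^ 2)) *
          ((c1 + c12 * y) ^ 2 + (c2 + c12 * x) ^ 2)) ≤ eK a b J c1 c2 c12 x y := by
    intro x y
    have q := KExp_pt (Real.exp (J * x * y + a * x + b * y)) J (c1 + c12 * y) (c2 + c12 * x)
      (Real.tanh (a + J * y)) (Real.tanh (b + J * x)) c12 x y (Real.exp_pos _)
      (Real.tanh_sq_lt_one _) (Real.tanh_sq_lt_one _)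
    have e : a * x + b * y + J * x * y = J * x * y + a * x + b * y := by ring
    unfold eK
    rw [e]
    exact q
  have p1 := p 1 1
  have p2 := p 1 (-1)
  have p3 := p (-1) 1
  have p4 := p (-1) (-1)
  linarith

variable {n : ℕ}

/-- the conditional field without the contribution of `j` -/
private noncomputable def KPair_A (J : Matrix (Fin n) (Fin n) ℝ) (h : Fin n → ℝ) (i j : Fin n)
    (x : Conf n) : ℝ :=
  (∑ k ∈ (Finset.univ.erase i).erase j, J i k * sg (x k)) + h i

private theorem KPair_lfd_i (J : Matrix (Fin n) (Fin n) ℝ) (h : Fin n → ℝ) (i j : Fin n)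
    (hij : i ≠ j) (x : Conf n) (a b : Bool) :
    lfd J h i (Function.update (Function.update x i a) j b) =
      KPair_A J h i j x + J i j * sg b := by
  unfold lfd KPair_A
  have hj : j ∈ Finset.univ.erase i := Finset.mem_erase.2 ⟨hij.symm, Finset.mem_univ j⟩
  rw [← Finset.add_sum_erase _ _ hj, Function.update_self]
  have h1 : ∑ k ∈ (Finset.univ.erase i).erase j,
      J i k * sg (Function.update (Function.update x i a) j b k) =
      ∑ k ∈ (Finset.univ.erase i).erase j, J i k * sg (x k) := by
    refine Finset.sum_congr rfl fun k hk => ?_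
    have hk1 := Finset.ne_of_mem_erase hk
    have hk2 := Finset.ne_of_mem_erase (Finset.mem_of_mem_erase hk)
    rw [Function.update_of_ne hk1, Function.update_of_ne hk2]
  rw [h1]
  ring

private theorem KPair_comm (i j : Fin n) (hij : i ≠ j) (x : Conf n) (a b : Bool) :
    Function.update (Function.update x i a) j b = Function.update (Function.update x j b) i a :=
  Function.update_comm hij a b x

private theorem KPair_lfd_j (J : Matrix (Fin n) (Fin n) ℝ) (hs : J.IsSymm) (h : Fin n → ℝ)
    (i j : Fin n) (hij : i ≠ j) (x : Conf n) (a b : Bool) :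
    lfd J h j (Function.update (Function.update x i a) j b) =
      KPair_A J h j i x + J i j * sg a := by
  rw [KPair_comm i j hij, KPair_lfd_i J h j i hij.symm, hs.apply i j]

private theorem KPair_upd_i (i j : Fin n) (hij : i ≠ j) (x : Conf n) (a b s : Bool) :
    Function.update (Function.update (Function.update x i a) j b) i s =
      Function.update (Function.update x i s) j b := by
  rw [KPair_comm i j hij x a b, Function.update_idem, ← KPair_comm i j hij]

private theorem KPair_upd_j (i j : Fin n) (x : Conf n) (a b s : Bool) :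
    Function.update (Function.update (Function.update x i a) j b) j s =
      Function.update (Function.update x i a) j s := Function.update_idem _ _ _

private theorem KPair_wt (J : Matrix (Fin n) (Fin n) ℝ) (hs : J.IsSymm) (h : Fin n → ℝ)
    (i : Fin n) (x : Conf n) :
    wt J h (Function.update x i true) =
      Real.exp (2 * lfd J h i x) * wt J h (Function.update x i false) :=
  wt_ratio J hs h x i

private theorem KPair_gibbs (J : Matrix (Fin n) (Fin n) ℝ) (hs : J.IsSymm) (h : Fin n → ℝ)
    (i j : Fin n) (hij : i ≠ j) (x : Conf n) :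
    ∃ c : ℝ, 0 ≤ c ∧ ∀ a b : Bool,
      gibbs J h (Function.update (Function.update x i a) j b) =
        c * Real.exp (KPair_A J h i j x * sg a + KPair_A J h j i x * sg b +
          J i j * sg a * sg b) := by
  set A0 := KPair_A J h i j x with hA0
  set B0 := KPair_A J h j i x with hB0
  have ht : sg true = 1 := rfl
  have hf : sg false = -1 := rfl
  have r1 := KPair_wt J hs h i (Function.update (Function.update x i true) j false)
  rw [KPair_lfd_i J h i j hij, KPair_upd_i i j hij, KPair_upd_i i j hij, ← hA0, hf] at r1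
  have r2 := KPair_wt J hs h j (Function.update (Function.update x i false) j false)
  rw [KPair_lfd_j J hs h i j hij, KPair_upd_j, KPair_upd_j, ← hB0, hf] at r2
  have r3 := KPair_wt J hs h j (Function.update (Function.update x i true) j false)
  rw [KPair_lfd_j J hs h i j hij, KPair_upd_j, KPair_upd_j, ← hB0, ht] at r3
  refine ⟨wt J h (Function.update (Function.update x i false) j false) *
    Real.exp (A0 + B0 - J i j) / ∑ y, wt J h y, ?_, ?_⟩
  · exact div_nonneg (mul_nonneg (MMin_wt_pos J h _).le (Real.exp_pos _).le) (MMin_Z_pos J h).le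
  · intro a b
    unfold gibbs
    rw [div_mul_eq_mul_div]
    congr 1
    rcases a with _ | _ <;> rcases b with _ | _
    · rw [hf, mul_assoc, ← Real.exp_add]
      have e : A0 + B0 - J i j + (A0 * -1 + B0 * -1 + J i j * -1 * -1) = 0 := by ring
      rw [e, Real.exp_zero, mul_one]
    · rw [hf, ht, r2, mul_assoc, ← Real.exp_add, mul_comm]
      congr 2
      ring
    · rw [hf, ht, r1, mul_assoc, ← Real.exp_add, mul_comm]
      congr 2
      ring
    · rw [ht, r3, r1, mul_assoc, ← Real.exp_add, ← mul_assoc, ← Real.exp_add, mul_comm]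
      congr 2
      ring

private theorem KPair_form (J : Matrix (Fin n) (Fin n) ℝ) (hs : J.IsSymm) (h : Fin n → ℝ)
    (i j : Fin n) (hij : i ≠ j) (f : Conf n → ℝ) (x : Conf n) :
    ∃ c A0 B0 c1 c2 c12 : ℝ, 0 ≤ c ∧ ∀ a b : Bool,
      (fun x => gibbs J h x *
      ((f x - cE (gibbs J h) {i} f x) * (f x - cE (gibbs J h) {j} f x) +
      J i j * ((sc J h i x * Dd f i x) * (sc J h j x * Dd f j x)) +
      2 * J i j ^ 2 * (th J h i x * th J h j x *
        ((sc J h i x * Dd f i x) * (sc J h j x * Dd f j x))) +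
      40 * |J i j| ^ 3 * (sc J h i x * Dd f i x ^ 2 + sc J h j x * Dd f j x ^ 2)))
        (Function.update (Function.update x i a) j b) =
      c * eK A0 B0 (J i j) c1 c2 c12 (sg a) (sg b) := by
  obtain ⟨c, hc, hg⟩ := KPair_gibbs J hs h i j hij x
  set F : Bool → Bool → ℝ := fun a b => f (Function.update (Function.update x i a) j b) with hF
  refine ⟨c, KPair_A J h i j x, KPair_A J h j i x,
    (F true true + F true false - F false true - F false false) / 4,
    (F true true - F true false + F false true - F false false) / 4,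
    (F true true - F true false - F false true + F false false) / 4, hc, fun a b => ?_⟩
  have hDi : Dd f i (Function.update (Function.update x i a) j b) =
      (F true true + F true false - F false true - F false false) / 4 +
        (F true true - F true false - F false true + F false false) / 4 * sg b := by
    unfold Dd
    rw [KPair_upd_i i j hij, KPair_upd_i i j hij]
    rcases b with _ | _
    · have hf : sg false = -1 := rfl
      rw [hf]
      simp only [hF]
      ring
    · have ht : sg true = 1 := rfl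
      rw [ht]
      simp only [hF]
      ring
  have hDj : Dd f j (Function.update (Function.update x i a) j b) =
      (F true true - F true false + F false true - F false false) / 4 +
        (F true true - F true false - F false true + F false false) / 4 * sg a := by
    unfold Dd
    rw [KPair_upd_j, KPair_upd_j]
    rcases a with _ | _
    · have hf : sg false = -1 := rfl
      rw [hf]
      simp only [hF]
      ring
    · have ht : sg true = 1 := rfl
      rw [ht]
      simp only [hF]
      ring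
  dsimp only
  rw [sub_cE J hs h i f, sub_cE J hs h j f, hg a b, hDi, hDj]
  unfold sc th
  rw [KPair_lfd_i J h i j hij, KPair_lfd_j J hs h i j hij, Function.update_self,
    Function.update_of_ne hij, Function.update_self]
  unfold eK
  ring

/-- the pair inequality -/
theorem pair_ineqK (J : Matrix (Fin n) (Fin n) ℝ) (hs : J.IsSymm) (h : Fin n → ℝ) (i j : Fin n)
    (hij : i ≠ j) (hJ : |J i j| ≤ 1 / 20) (f : Conf n → ℝ) :
    0 ≤ ∑ x, gibbs J h x * ((f x - cE (gibbs J h) {i} f x) * (f x - cE (gibbs J h) {j} f x) +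
      J i j * ((sc J h i x * Dd f i x) * (sc J h j x * Dd f j x)) +
      2 * J i j ^ 2 * (th J h i x * th J h j x *
        ((sc J h i x * Dd f i x) * (sc J h j x * Dd f j x))) +
      40 * |J i j| ^ 3 * (sc J h i x * Dd f i x ^ 2 + sc J h j x * Dd f j x ^ 2)) := by
  have hkey := sum_two i j hij (fun x => gibbs J h x *
      ((f x - cE (gibbs J h) {i} f x) * (f x - cE (gibbs J h) {j} f x) +
      J i j * ((sc J h i x * Dd f i x) * (sc J h j x * Dd f j x)) +
      2 * J i j ^ 2 * (th J h i x * th J h j x *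
        ((sc J h i x * Dd f i x) * (sc J h j x * Dd f j x))) +
      40 * |J i j| ^ 3 * (sc J h i x * Dd f i x ^ 2 + sc J h j x * Dd f j x ^ 2)))
  have h4 : 0 ≤ 4 * ∑ x, gibbs J h x *
      ((f x - cE (gibbs J h) {i} f x) * (f x - cE (gibbs J h) {j} f x) +
      J i j * ((sc J h i x * Dd f i x) * (sc J h j x * Dd f j x)) +
      2 * J i j ^ 2 * (th J h i x * th J h j x *
        ((sc J h i x * Dd f i x) * (sc J h j x * Dd f j x))) +
      40 * |J i j| ^ 3 * (sc J h i x * Dd f i x ^ 2 + sc J h j x * Dd f j x ^ 2)) := by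
    refine le_of_le_of_eq (Finset.sum_nonneg fun x _ => ?_) hkey.symm
    obtain ⟨c, A0, B0, c1, c2, c12, hc, H⟩ := KPair_form J hs h i j hij f x
    have ht : sg true = 1 := rfl
    have hf : sg false = -1 := rfl
    have e1 := H true true
    have e2 := H true false
    have e3 := H false true
    have e4 := H false false
    rw [ht] at e1 e2 e3
    rw [hf] at e2 e3 e4
    have h2 := two_spin_expK A0 B0 (J i j) c1 c2 c12 hJ
    dsimp only at e1 e2 e3 e4 ⊢
    rw [e1, e2, e3, e4, ← mul_add, ← mul_add, ← mul_add]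
    exact mul_nonneg hc h2
  linarith

end SKG
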