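import Pool.Agent.Lib.MP_c42713_prK.KFin
import Pool.Agent.Lib.MP_c42713_prK.KForm
import Pool.Agent.Lib.MP_c42713_pr.RNorm

/-!
# The quadratic form of GOE on sparse vectors
-/

namespace SKG

open MeasureTheory ProbabilityTheory Filter Topology

/-- the constraint on the size of the additional sets -/
noncomputable def thk (ε : ℝ) : ℝ := (kl (ε ^ 2 / 64) * (ε ^ 2 / 64) / 4) ^ 2 / 4

theorem thk_pos {ε : ℝ} (hε : 0 < ε) : 0 < thk ε := by
  unfold thk
  have h1 : 0 < ε ^ 2 / 64 := by positivity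
  have h2 := kl_pos h1
  positivity

theorem KSpec_tendsto {c : ℝ} (hc : 0 < c) (a : ℝ) :
    Tendsto (fun n : ℕ => ENNReal.ofReal (Real.exp (a - c * n))) atTop (𝓝 0) := by
  have h1 : Tendsto (fun n : ℕ => (n : ℝ) * c) atTop atTop :=
    tendsto_natCast_atTop_atTop.atTop_mul_const hc
  have h2 : Tendsto (fun n : ℕ => Real.exp (-((n : ℝ) * c))) atTop (𝓝 0) :=
    Real.tendsto_exp_neg_atTop_nhds_zero.comp h1
  have h3 : Tendsto (fun n : ℕ => Real.exp a * Real.exp (-((n : ℝ) * c))) atTop (𝓝 0) := by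
    simpa using h2.const_mul (Real.exp a)
  have h4 := ENNReal.tendsto_ofReal h3
  rw [ENNReal.ofReal_zero] at h4
  refine h4.congr fun n => ?_
  rw [← Real.exp_add, sub_eq_add_neg, mul_comm]

theorem goe_sparse (a ε θ : ℝ) (ha0 : 0 ≤ a) (ha1 : a ≤ 1) (hε : 0 < ε) (hε1 : ε ≤ 1)
    (hθ0 : 0 ≤ θ) (hθ : θ ≤ thk (ε / 2)) :
    ∃ p : ℕ → ENNReal, Tendsto p atTop (𝓝 0) ∧ ∀ n, 4 ≤ n → ∀ S : Finset (Fin n),
      (S.card : ℝ) ≤ a * n →
      gauss n {g | ¬ ∀ T ∈ smallSets n θ, ∀ v : Fin n → ℝ, (∀ i, i ∉ S ∪ T → v i = 0) →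
        KB (goe n g) v v ≤ (2 * Real.sqrt a + ε) * ∑ i, v i ^ 2} ≤ p n := by
  classical
  obtain ⟨p1, hp1, hp1n⟩ := goe_norm 1 one_pos
  set ε2 : ℝ := ε / 2 with hε2
  have hε20 : 0 < ε2 := by rw [hε2]; linarith
  have hε21 : ε2 ≤ 1 := by rw [hε2]; linarith
  set c1 : ℝ := kl (ε2 ^ 2 / 64) * (ε2 ^ 2 / 64) / 4 with hc1
  have hc10 : 0 < c1 := by
    have h1 : 0 < ε2 ^ 2 / 64 := by positivity
    have h2 := kl_pos h1
    rw [hc1]; positivity
  refine ⟨fun n => p1 n + (ENNReal.ofReal (Real.exp (1 - c1 * n)) +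
    ENNReal.ofReal (Real.exp (1 - n * (ε2 ^ 2 / 64)))), ?_, ?_⟩
  · have h1 := KSpec_tendsto hc10 1
    have h2 := KSpec_tendsto (c := ε2 ^ 2 / 64) (by positivity) 1
    have h3 : Tendsto (fun n : ℕ => ENNReal.ofReal (Real.exp (1 - n * (ε2 ^ 2 / 64)))) atTop (𝓝 0) := by
      refine h2.congr fun n => ?_
      rw [mul_comm]
    simpa using hp1.add (h1.add h3)
  · intro n hn S hS
    have hb0 : 0 ≤ Real.sqrt a := Real.sqrt_nonneg a
    set δ : ℝ := ε / 14 with hδ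
    have hδ0 : 0 < δ := by rw [hδ]; linarith
    obtain ⟨m, N, hN, hnet⟩ := exists_net n δ hδ0
    -- the family of sparse vectors
    let κ : Type := {p : Fin m × Finset (Fin n) //
      p.2 ∈ smallSets n θ ∧ ∑ i, rst (S ∪ p.2) (N p.1) i ^ 2 ≠ 0}
    let ρ : κ → ℝ := fun k => Real.sqrt (∑ i, rst (S ∪ k.1.2) (N k.1.1) i ^ 2)
    have hρ0 : ∀ k : κ, 0 < ρ k := fun k => Real.sqrt_pos.2
      (lt_of_le_of_ne (Finset.sum_nonneg fun _ _ => sq_nonneg _) (Ne.symm k.2.2))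
    have hρ2 : ∀ k : κ, ρ k ^ 2 = ∑ i, rst (S ∪ k.1.2) (N k.1.1) i ^ 2 := fun k =>
      Real.sq_sqrt (Finset.sum_nonneg fun _ _ => sq_nonneg _)
    let V : κ → Fin n → ℝ := fun k i => (ρ k)⁻¹ * rst (S ∪ k.1.2) (N k.1.1) i
    have hV : ∀ k, ∑ i, V k i ^ 2 = 1 := by
      intro k
      show ∑ i, ((ρ k)⁻¹ * rst (S ∪ k.1.2) (N k.1.1) i) ^ 2 = 1
      simp only [mul_pow]
      rw [← Finset.mul_sum, ← hρ2, inv_pow]
      exact inv_mul_cancel₀ (pow_pos (hρ0 k) 2).ne'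
    have hVT : ∀ k i, i ∉ S ∪ k.1.2 → V k i = 0 := by
      intro k i hi
      show (ρ k)⁻¹ * rst (S ∪ k.1.2) (N k.1.1) i = 0
      unfold rst
      rw [if_neg hi, mul_zero]
    have hfin := KFin_goe hn S a ε2 θ ha0 ha1 hε20 hε21 hS hθ0 hθ κ V (fun k => k.1.2)
      (fun k => k.2.1) hV hVT
    have hsub : {g : Smp n | ¬ ∀ T ∈ smallSets n θ, ∀ v : Fin n → ℝ, (∀ i, i ∉ S ∪ T → v i = 0) →
        KB (goe n g) v v ≤ (2 * Real.sqrt a + ε) * ∑ i, v i ^ 2} ⊆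
        {g | ¬ ∀ v : Fin n → ℝ, |∑ i, ∑ j, goe n g i j * v i * v j| ≤ (2 + 1) * ∑ i, v i ^ 2} ∪
        {g | ∃ k, 2 * Real.sqrt a + ε2 < ∑ i, ∑ j, goe n g i j * V k i * V k j} := by
      intro g hg
      by_contra hcon
      rw [Set.mem_union, not_or] at hcon
      obtain ⟨h1, h2⟩ := hcon
      have h1' : ∀ v : Fin n → ℝ, |KB (goe n g) v v| ≤ 3 * ∑ i, v i ^ 2 := by
        have h1'' := not_not.1 h1
        intro v
        have h3 := h1'' v
        have e : (2 + 1 : ℝ) = 3 := by norm_num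
        rw [e] at h3
        exact h3
      have h2' : ∀ k : κ, KB (goe n g) (V k) (V k) ≤ 2 * Real.sqrt a + ε2 := by
        intro k
        by_contra hk
        exact h2 ⟨k, not_le.1 hk⟩
      apply hg
      intro T hT v hv
      have hc0 : 0 ≤ 2 * Real.sqrt a + ε2 := by positivity
      have key := KB_net (goe n g) (goe_symm n g) 3 δ (2 * Real.sqrt a + ε2) (by norm_num) hδ0
        hc0 h1' m N hN hnet (S ∪ T) ?_ v hv
      · refine key.trans (mul_le_mul_of_nonneg_right ?_ (Finset.sum_nonneg fun _ _ => sq_nonneg _))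
        have : δ ^ 2 ≤ ε / 196 := by
          rw [hδ]
          nlinarith
        rw [hε2, hδ]
        rw [hδ] at this
        linarith
      · intro k
        by_cases h0 : ∑ i, rst (S ∪ T) (N k) i ^ 2 = 0
        · have hz := (abs_le.1 (h1' (rst (S ∪ T) (N k)))).2
          rw [h0] at hz
          linarith
        · have hk := h2' ⟨(k, T), hT, h0⟩
          have hk' : KB (goe n g) (V ⟨(k, T), hT, h0⟩) (V ⟨(k, T), hT, h0⟩) =
              (ρ ⟨(k, T), hT, h0⟩)⁻¹ * ((ρ ⟨(k, T), hT, h0⟩)⁻¹ *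
                KB (goe n g) (rst (S ∪ T) (N k)) (rst (S ∪ T) (N k))) := by
            show KB (goe n g) (fun i => (ρ ⟨(k, T), hT, h0⟩)⁻¹ * rst (S ∪ T) (N k) i)
              (fun i => (ρ ⟨(k, T), hT, h0⟩)⁻¹ * rst (S ∪ T) (N k) i) = _
            rw [KB_smul_left, KB_symm _ (goe_symm n g), KB_smul_left]
          have r0 := hρ0 ⟨(k, T), hT, h0⟩
          have r2 := hρ2 ⟨(k, T), hT, h0⟩
          have r1 : ρ ⟨(k, T), hT, h0⟩ ^ 2 ≤ 1 := by
            rw [r2]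
            have := rst_sq_le (S ∪ T) (N k)
            rw [hN k] at this
            exact this
          rw [hk'] at hk
          have e : KB (goe n g) (rst (S ∪ T) (N k)) (rst (S ∪ T) (N k)) =
              ρ ⟨(k, T), hT, h0⟩ ^ 2 * ((ρ ⟨(k, T), hT, h0⟩)⁻¹ * ((ρ ⟨(k, T), hT, h0⟩)⁻¹ *
                KB (goe n g) (rst (S ∪ T) (N k)) (rst (S ∪ T) (N k)))) := by
            field_simp
          rw [e]
          calc _ ≤ ρ ⟨(k, T), hT, h0⟩ ^ 2 * (2 * Real.sqrt a + ε2) :=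
                mul_le_mul_of_nonneg_left hk (sq_nonneg _)
            _ ≤ 1 * (2 * Real.sqrt a + ε2) := mul_le_mul_of_nonneg_right r1 hc0
            _ = _ := one_mul _
    calc _ ≤ _ := measure_mono hsub
      _ ≤ _ := measure_union_le _ _
      _ ≤ _ := add_le_add (hp1n n hn) hfin

end SKG
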