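import Pool.Agent.Lib.MP_c42713_pr.G2TwoE

/-!
# The two spin inequality with the rank one second order term

As `two_spin` (G2Two*.lean), with `-2 J^2 t1 t2 s1 s2 psi1 psi2` in place of `-J^2 s1 s2 (t1^2 psi1^2 + t2^2 psi2^2)`.
-/

namespace SKG

open Real

theorem KTwo_t {α τ θ y : ℝ} (hα : |α| ≤ 1) (hτ : |τ| = θ) (hθ : θ ≤ 1 / 20) (hy : |y| = 1) :
    |(α + τ * y) / (1 + α * τ * y)| ≤ 1 ∧ |(α + τ * y) / (1 + α * τ * y) - α| ≤ 11 / 10 * θ := by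
  have hθ0 : 0 ≤ θ := by rw [← hτ]; exact abs_nonneg _
  obtain ⟨σ, hσ⟩ : ∃ σ, σ = τ * y := ⟨_, rfl⟩
  have hσ1 : |σ| ≤ θ := by rw [hσ, abs_mul, hy, hτ, mul_one]
  have hασ : |α * σ| ≤ θ := by
    rw [abs_mul]
    calc |α| * |σ| ≤ 1 * θ := mul_le_mul hα hσ1 (abs_nonneg _) zero_le_one
      _ = θ := one_mul _
  have e0 : α * τ * y = α * σ := by rw [hσ]; ring
  rw [e0, ← hσ]
  have h1 := abs_le.mp hασ
  have h2 := abs_le.mp hσ1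
  have h3 := abs_le.mp hα
  have hpos : (19 / 20 : ℝ) ≤ 1 + α * σ := by linarith [h1.1]
  have hp0 : 0 < 1 + α * σ := by linarith
  obtain ⟨t, ht⟩ : ∃ t, t = (α + σ) / (1 + α * σ) := ⟨_, rfl⟩
  rw [← ht]
  have ht1 : |t| ≤ 1 := by
    rw [ht, abs_div, abs_of_pos hp0, div_le_one hp0, abs_le]
    constructor
    · nlinarith [mul_nonneg (by linarith [h3.1] : 0 ≤ 1 + α) (by linarith [h2.1] : 0 ≤ 1 + σ)]
    · nlinarith [mul_nonneg (by linarith [h3.2] : 0 ≤ 1 - α) (by linarith [h2.2] : 0 ≤ 1 - σ)]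
  refine ⟨ht1, ?_⟩
  have hd : t - α = σ * (1 - α ^ 2) / (1 + α * σ) := by
    rw [ht]; field_simp; ring
  have hα2 : α ^ 2 ≤ 1 := by rw [sq_le_one_iff_abs_le_one]; exact hα
  rw [hd, abs_div, abs_of_pos hp0, div_le_iff₀ hp0, abs_mul]
  have : |1 - α ^ 2| ≤ 1 := by
    rw [abs_le]; constructor <;> nlinarith [sq_nonneg α]
  calc |σ| * |1 - α ^ 2| ≤ θ * 1 := mul_le_mul hσ1 this (abs_nonneg _) hθ0
    _ ≤ 11 / 10 * θ * (19 / 20) := by linarith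
    _ ≤ 11 / 10 * θ * (1 + α * σ) := by
        apply mul_le_mul_of_nonneg_left hpos (by linarith)

theorem KTwo_point {α γ τ J x y P Q c θ : ℝ} (hα : |α| ≤ 1) (hγ : |γ| ≤ 1) (hτ : |τ| = θ)
    (hθ : θ ≤ 1 / 20) (hJ : |J - τ| ≤ θ ^ 3) (hJ2 : θ ≤ |J|) (hx : |x| = 1) (hy : |y| = 1) :
    (1 - τ ^ 2) * (1 + τ * x * y) * (1 / (1 + α * τ * y)) ^ 2 * (1 / (1 + γ * τ * x)) ^ 2 *
      (-J * P * Q - 2 * J ^ 2 * (((α + τ * y) / (1 + α * τ * y)) *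
        ((γ + τ * x) / (1 + γ * τ * x))) * (P * Q) + c ^ 2 / 2 - 40 * |J| ^ 3 * (P ^ 2 + Q ^ 2))
    ≤ -τ * (1 + τ * x * y - 2 * (α * τ * y) - 2 * (γ * τ * x)) * (P * Q)
      - 2 * τ ^ 2 * (α * γ) * (P * Q) + (1 / 2 + 3 * θ) * c ^ 2
      - 3 * θ ^ 3 * (P ^ 2 + Q ^ 2) := by
  have hθ0 : 0 ≤ θ := by rw [← hτ]; exact abs_nonneg _
  have hτ2 : τ ^ 2 = θ ^ 2 := by rw [← hτ, sq_abs]
  have hz : |τ * x * y| ≤ θ := by rw [abs_mul, abs_mul, hx, hy, hτ]; linarith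
  have hp : |α * τ * y| ≤ θ := by
    rw [abs_mul, abs_mul, hy, hτ, mul_one]
    calc |α| * θ ≤ 1 * θ := mul_le_mul_of_nonneg_right hα hθ0
      _ = θ := one_mul _
  have hq : |γ * τ * x| ≤ θ := by
    rw [abs_mul, abs_mul, hx, hτ, mul_one]
    calc |γ| * θ ≤ 1 * θ := mul_le_mul_of_nonneg_right hγ hθ0
      _ = θ := one_mul _
  have hΩ := om_bd hτ hz hp hq hθ
  obtain ⟨t1a, t1b⟩ := KTwo_t hα hτ hθ hy
  obtain ⟨t2a, t2b⟩ := KTwo_t hγ hτ hθ hx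
  obtain ⟨T1, hT1⟩ : ∃ T, T = (α + τ * y) / (1 + α * τ * y) := ⟨_, rfl⟩
  obtain ⟨T2, hT2⟩ : ∃ T, T = (γ + τ * x) / (1 + γ * τ * x) := ⟨_, rfl⟩
  rw [← hT1] at t1a t1b ⊢
  rw [← hT2] at t2a t2b ⊢
  obtain ⟨Ω, hΩe⟩ : ∃ Ω, Ω = (1 - τ ^ 2) * (1 + τ * x * y) * (1 / (1 + α * τ * y)) ^ 2 *
    (1 / (1 + γ * τ * x)) ^ 2 := ⟨_, rfl⟩
  rw [← hΩe] at hΩ ⊢
  obtain ⟨O1, hO1⟩ : ∃ O1, O1 = 1 + τ * x * y - 2 * (α * τ * y) - 2 * (γ * τ * x) := ⟨_, rfl⟩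
  rw [← hO1] at hΩ ⊢
  have hθ2 : 20 * θ ^ 2 ≤ θ := by nlinarith
  have bO : |O1 - 1| ≤ 5 * θ := by
    have a1 := abs_le.mp hz
    have a2 := abs_le.mp hp
    have a3 := abs_le.mp hq
    rw [hO1, abs_le]
    constructor <;> linarith [a1.1, a1.2, a2.1, a2.2, a3.1, a3.2]
  have bO' := abs_le.mp bO
  have bΩ' := abs_le.mp hΩ
  have Ωlo : 1 - 6 * θ ≤ Ω := by linarith [bO'.1, bΩ'.1]
  have Ωhi : Ω ≤ 1 + 6 * θ := by linarith [bO'.2, bΩ'.2]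
  have Ω7 : 7 / 10 ≤ Ω := by linarith
  have Ω13 : Ω ≤ 13 / 10 := by linarith
  have hV : 0 ≤ P ^ 2 + Q ^ 2 := by positivity
  have hPQ : |P * Q| ≤ (P ^ 2 + Q ^ 2) / 2 := by
    rw [abs_le]; constructor <;> nlinarith [sq_nonneg (P + Q), sq_nonneg (P - Q)]
  have hθ3 : 0 ≤ θ ^ 3 := by positivity
  -- cross term
  have c1 : |Ω * J - τ * O1| ≤ 22 * θ ^ 3 := by
    have e : Ω * J - τ * O1 = Ω * (J - τ) + τ * (Ω - O1) := by ring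
    rw [e]
    calc |Ω * (J - τ) + τ * (Ω - O1)| ≤ |Ω * (J - τ)| + |τ * (Ω - O1)| := abs_add_le _ _
      _ = |Ω| * |J - τ| + |τ| * |Ω - O1| := by rw [abs_mul, abs_mul]
      _ ≤ 13 / 10 * θ ^ 3 + θ * (20 * θ ^ 2) := by
          apply add_le_add
          · apply mul_le_mul _ hJ (abs_nonneg _) (by norm_num)
            rw [abs_of_nonneg (by linarith)]; exact Ω13
          · rw [hτ]; exact mul_le_mul_of_nonneg_left hΩ hθ0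
      _ ≤ 22 * θ ^ 3 := by
          have : θ * (20 * θ ^ 2) = 20 * θ ^ 3 := by ring
          linarith
  have c2 : |(Ω * J - τ * O1) * (P * Q)| ≤ 22 * θ ^ 3 * ((P ^ 2 + Q ^ 2) / 2) := by
    rw [abs_mul]
    exact mul_le_mul c1 hPQ (abs_nonneg _) (by positivity)
  have c3 := (abs_le.mp c2).1
  -- second order term
  have J2 : |J| ≤ 401 / 400 * θ := by
    have a1 : |J| ≤ |J - τ| + |τ| := by
      have := abs_add_le (J - τ) τ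
      rwa [sub_add_cancel] at this
    have a2 : θ ^ 3 ≤ 1 / 400 * θ := by
      have a3 : θ ^ 2 ≤ 1 / 400 := by nlinarith
      calc θ ^ 3 = θ ^ 2 * θ := by ring
        _ ≤ 1 / 400 * θ := mul_le_mul_of_nonneg_right a3 hθ0
    rw [hτ] at a1
    linarith
  have J3 : θ ^ 3 ≤ |J| ^ 3 := pow_le_pow_left₀ hθ0 hJ2 3
  have hJs : J ^ 2 ≤ 101 / 100 * θ ^ 2 := by
    rw [← sq_abs J]
    calc |J| ^ 2 ≤ (401 / 400 * θ) ^ 2 := pow_le_pow_left₀ (abs_nonneg _) J2 2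
      _ ≤ 101 / 100 * θ ^ 2 := by nlinarith [sq_nonneg θ]
  have hTT : |T1 * T2| ≤ 1 := by
    rw [abs_mul]
    calc |T1| * |T2| ≤ 1 * 1 := mul_le_mul t1a t2a (abs_nonneg _) zero_le_one
      _ = 1 := one_mul _
  have d1 : |T1 * T2 - α * γ| ≤ 22 / 10 * θ := by
    have e : T1 * T2 - α * γ = (T1 - α) * T2 + α * (T2 - γ) := by ring
    rw [e]
    calc |(T1 - α) * T2 + α * (T2 - γ)| ≤ |(T1 - α) * T2| + |α * (T2 - γ)| := abs_add_le _ _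
      _ = |T1 - α| * |T2| + |α| * |T2 - γ| := by rw [abs_mul, abs_mul]
      _ ≤ 11 / 10 * θ * 1 + 1 * (11 / 10 * θ) := add_le_add
          (mul_le_mul t1b t2a (abs_nonneg _) (by positivity))
          (mul_le_mul hα t2b (abs_nonneg _) zero_le_one)
      _ = 22 / 10 * θ := by ring
  have d2 : |J ^ 2 - τ ^ 2| ≤ θ ^ 3 := by
    have e : J ^ 2 - τ ^ 2 = (J - τ) * (J + τ) := by ring
    rw [e, abs_mul]
    have h5 : |J + τ| ≤ 1 := by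
      calc |J + τ| ≤ |J| + |τ| := abs_add_le _ _
        _ ≤ 1 := by rw [hτ]; linarith
    calc |J - τ| * |J + τ| ≤ θ ^ 3 * 1 := mul_le_mul hJ h5 (abs_nonneg _) (by positivity)
      _ = θ ^ 3 := mul_one _
  have d3 : |Ω - 1| ≤ 6 * θ := by
    rw [abs_le]; constructor <;> linarith
  have d4 : |Ω * J ^ 2 * (T1 * T2) - τ ^ 2 * (α * γ)| ≤ 10 * θ ^ 3 := by
    have e : Ω * J ^ 2 * (T1 * T2) - τ ^ 2 * (α * γ) = (Ω - 1) * (J ^ 2 * (T1 * T2)) +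
        (J ^ 2 - τ ^ 2) * (T1 * T2) + τ ^ 2 * (T1 * T2 - α * γ) := by ring
    have f1 : |(Ω - 1) * (J ^ 2 * (T1 * T2))| ≤ 6 * θ * (101 / 100 * θ ^ 2 * 1) := by
      rw [abs_mul]
      apply mul_le_mul d3 _ (abs_nonneg _) (by positivity)
      rw [abs_mul, abs_of_nonneg (sq_nonneg J)]
      exact mul_le_mul hJs hTT (abs_nonneg _) (by positivity)
    have f2 : |(J ^ 2 - τ ^ 2) * (T1 * T2)| ≤ θ ^ 3 * 1 := by
      rw [abs_mul]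
      exact mul_le_mul d2 hTT (abs_nonneg _) (by positivity)
    have f3 : |τ ^ 2 * (T1 * T2 - α * γ)| ≤ θ ^ 2 * (22 / 10 * θ) := by
      rw [abs_mul, abs_of_nonneg (sq_nonneg τ), hτ2]
      exact mul_le_mul_of_nonneg_left d1 (sq_nonneg θ)
    rw [e]
    have f4 := abs_add_le ((Ω - 1) * (J ^ 2 * (T1 * T2)) + (J ^ 2 - τ ^ 2) * (T1 * T2))
      (τ ^ 2 * (T1 * T2 - α * γ))
    have f5 := abs_add_le ((Ω - 1) * (J ^ 2 * (T1 * T2))) ((J ^ 2 - τ ^ 2) * (T1 * T2))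
    have e1 : 6 * θ * (101 / 100 * θ ^ 2 * 1) = 606 / 100 * θ ^ 3 := by ring
    have e2 : θ ^ 2 * (22 / 10 * θ) = 22 / 10 * θ ^ 3 := by ring
    rw [e1] at f1
    rw [e2] at f3
    linarith
  have d5 : |(Ω * J ^ 2 * (T1 * T2) - τ ^ 2 * (α * γ)) * (P * Q)| ≤
      10 * θ ^ 3 * ((P ^ 2 + Q ^ 2) / 2) := by
    rw [abs_mul]
    exact mul_le_mul d4 hPQ (abs_nonneg _) (by positivity)
  have d6 := (abs_le.mp d5).1
  have q3 : Ω * (c ^ 2 / 2) ≤ (1 + 6 * θ) * (c ^ 2 / 2) :=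
    mul_le_mul_of_nonneg_right Ωhi (by positivity)
  have q4 : 7 / 10 * (40 * θ ^ 3 * (P ^ 2 + Q ^ 2)) ≤ Ω * (40 * |J| ^ 3 * (P ^ 2 + Q ^ 2)) := by
    apply mul_le_mul Ω7 _ (by positivity) (by linarith)
    apply mul_le_mul_of_nonneg_right _ hV
    linarith
  have eL : Ω * (-J * P * Q - 2 * J ^ 2 * (T1 * T2) * (P * Q) + c ^ 2 / 2
      - 40 * |J| ^ 3 * (P ^ 2 + Q ^ 2))
      = -((Ω * J - τ * O1) * (P * Q)) - τ * O1 * (P * Q)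
        - 2 * ((Ω * J ^ 2 * (T1 * T2) - τ ^ 2 * (α * γ)) * (P * Q))
        - 2 * τ ^ 2 * (α * γ) * (P * Q)
        + Ω * (c ^ 2 / 2) - Ω * (40 * |J| ^ 3 * (P ^ 2 + Q ^ 2)) := by
    ring
  rw [eL]
  have hV3 : 0 ≤ θ ^ 3 * (P ^ 2 + Q ^ 2) := by positivity
  have r3 : (1 + 6 * θ) * (c ^ 2 / 2) = (1 / 2 + 3 * θ) * c ^ 2 := by ring
  have r4 : 7 / 10 * (40 * θ ^ 3 * (P ^ 2 + Q ^ 2)) = 28 * (θ ^ 3 * (P ^ 2 + Q ^ 2)) := by ring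
  have r5 : 22 * θ ^ 3 * ((P ^ 2 + Q ^ 2) / 2) = 11 * (θ ^ 3 * (P ^ 2 + Q ^ 2)) := by ring
  have r6 : 10 * θ ^ 3 * ((P ^ 2 + Q ^ 2) / 2) = 5 * (θ ^ 3 * (P ^ 2 + Q ^ 2)) := by ring
  have r8 : -τ * O1 * (P * Q) = -(τ * O1 * (P * Q)) := by ring
  have r9 : 3 * θ ^ 3 * (P ^ 2 + Q ^ 2) = 3 * (θ ^ 3 * (P ^ 2 + Q ^ 2)) := by ring
  rw [r3] at q3
  rw [r4] at q4
  rw [r5] at c3
  rw [r6] at d6
  rw [r8, r9]
  linarith

theorem KTwo_fin {α γ τ X Y c θ : ℝ} (hα : |α| ≤ 1) (hγ : |γ| ≤ 1) (hτ : |τ| = θ)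
    (hθ : θ ≤ 1 / 20) :
    -τ * (X * Y * (1 - 3 * (α * γ * τ)) - c * X * γ * τ * (1 - α ^ 2)
        - c * Y * α * τ * (1 - γ ^ 2) + c ^ 2 * τ * (1 - α ^ 2) * (1 - γ ^ 2))
      - 2 * τ ^ 2 * (α * γ) * (X * Y)
      + (1 / 2 + 3 * θ) * c ^ 2
      - 3 * θ ^ 3 * (X ^ 2 + c ^ 2 * (1 - γ ^ 2) + (Y ^ 2 + c ^ 2 * (1 - α ^ 2)))
    ≤ ((1 + α * γ * τ - τ ^ 2 * (α ^ 2 + γ ^ 2 - α ^ 2 * γ ^ 2) - α * γ * τ ^ 3) * c ^ 2
        - τ * (1 - α * γ * τ) * (X * Y)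
        + τ ^ 2 * c * (γ * (1 - α ^ 2) * X + α * (1 - γ ^ 2) * Y))
      / ((1 - α ^ 2 * τ ^ 2) * (1 - γ ^ 2 * τ ^ 2)) := by
  have hθ0 : 0 ≤ θ := by rw [← hτ]; exact abs_nonneg _
  have hτ2 : τ ^ 2 = θ ^ 2 := by rw [← hτ, sq_abs]
  have hα2 : α ^ 2 ≤ 1 := by rw [sq_le_one_iff_abs_le_one]; exact hα
  have hγ2 : γ ^ 2 ≤ 1 := by rw [sq_le_one_iff_abs_le_one]; exact hγ
  have hα0 := sq_nonneg α
  have hγ0 := sq_nonneg γ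
  have hαγ : |α * γ| ≤ 1 := by
    rw [abs_mul]
    calc |α| * |γ| ≤ 1 * 1 := mul_le_mul hα hγ (abs_nonneg _) zero_le_one
      _ = 1 := one_mul _
  have hu : |α * γ * τ| ≤ θ := by
    rw [abs_mul, hτ]
    calc |α * γ| * θ ≤ 1 * θ := mul_le_mul_of_nonneg_right hαγ hθ0
      _ = θ := one_mul _
  have hu' := abs_le.mp hu
  have hθ2 : θ ^ 2 ≤ 1 / 20 * θ := by nlinarith
  have hθ3 : θ ^ 3 ≤ 1 / 20 * θ ^ 2 := by
    have := mul_le_mul_of_nonneg_left hθ (sq_nonneg θ)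
    calc θ ^ 3 = θ ^ 2 * θ := by ring
      _ ≤ θ ^ 2 * (1 / 20) := this
      _ = 1 / 20 * θ ^ 2 := by ring
  have hT2 : 0 ≤ θ ^ 2 := sq_nonneg θ
  have hT3 : 0 ≤ θ ^ 3 := by positivity
  -- the denominator
  obtain ⟨a, ha⟩ : ∃ a, a = α ^ 2 * τ ^ 2 := ⟨_, rfl⟩
  obtain ⟨g, hg⟩ : ∃ g, g = γ ^ 2 * τ ^ 2 := ⟨_, rfl⟩
  have ha1 : a ≤ θ ^ 2 := by
    rw [ha, hτ2]
    calc α ^ 2 * θ ^ 2 ≤ 1 * θ ^ 2 := mul_le_mul_of_nonneg_right hα2 hT2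
      _ = θ ^ 2 := one_mul _
  have hg1 : g ≤ θ ^ 2 := by
    rw [hg, hτ2]
    calc γ ^ 2 * θ ^ 2 ≤ 1 * θ ^ 2 := mul_le_mul_of_nonneg_right hγ2 hT2
      _ = θ ^ 2 := one_mul _
  have ha0 : 0 ≤ a := by rw [ha]; positivity
  have hg0 : 0 ≤ g := by rw [hg]; positivity
  obtain ⟨D, hD⟩ : ∃ D, D = (1 - a) * (1 - g) := ⟨_, rfl⟩
  have hD1 : D ≤ 1 := by rw [hD]; nlinarith
  have hDlo : 1 - 2 * θ ^ 2 ≤ D := by rw [hD]; nlinarith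
  have hDpos : 0 < D := by linarith
  obtain ⟨K, hK⟩ : ∃ K, K = 1 + α * γ * τ - τ ^ 2 * (α ^ 2 + γ ^ 2 - α ^ 2 * γ ^ 2)
    - α * γ * τ ^ 3 := ⟨_, rfl⟩
  have hw : 0 ≤ α ^ 2 + γ ^ 2 - α ^ 2 * γ ^ 2 ∧ α ^ 2 + γ ^ 2 - α ^ 2 * γ ^ 2 ≤ 1 := by
    constructor
    · nlinarith [mul_nonneg hα0 (sub_nonneg.2 hγ2)]
    · nlinarith [mul_nonneg (sub_nonneg.2 hα2) (sub_nonneg.2 hγ2)]
  have hK1 : 1 - 11 / 10 * θ ≤ K := by
    have e1 : τ ^ 2 * (α ^ 2 + γ ^ 2 - α ^ 2 * γ ^ 2) ≤ θ ^ 2 := by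
      rw [hτ2]
      calc θ ^ 2 * (α ^ 2 + γ ^ 2 - α ^ 2 * γ ^ 2) ≤ θ ^ 2 * 1 :=
            mul_le_mul_of_nonneg_left hw.2 hT2
        _ = θ ^ 2 := mul_one _
    have e2 : α * γ * τ ^ 3 ≤ θ ^ 3 := by
      calc α * γ * τ ^ 3 = (α * γ * τ) * τ ^ 2 := by ring
        _ ≤ θ * τ ^ 2 := mul_le_mul_of_nonneg_right hu'.2 (sq_nonneg τ)
        _ = θ ^ 3 := by rw [hτ2]; ring
    rw [hK]
    linarith [hu'.1]
  have hK0 : 0 ≤ K := by linarith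
  -- negative parts
  have hXY : |X * Y| ≤ (X ^ 2 + Y ^ 2) / 2 := by
    rw [abs_le]; constructor <;> nlinarith [sq_nonneg (X + Y), sq_nonneg (X - Y)]
  obtain ⟨R, hR⟩ : ∃ R, R = - τ * (1 - α * γ * τ) * (X * Y)
      + τ ^ 2 * c * (γ * (1 - α ^ 2) * X + α * (1 - γ ^ 2) * Y) := ⟨_, rfl⟩
  have hg' : |γ * (1 - α ^ 2)| ≤ 1 := by
    rw [abs_mul]
    calc |γ| * |1 - α ^ 2| ≤ 1 * 1 := by
          apply mul_le_mul hγ _ (abs_nonneg _) zero_le_one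
          rw [abs_le]; constructor <;> linarith
      _ = 1 := one_mul _
  have ha' : |α * (1 - γ ^ 2)| ≤ 1 := by
    rw [abs_mul]
    calc |α| * |1 - γ ^ 2| ≤ 1 * 1 := by
          apply mul_le_mul hα _ (abs_nonneg _) zero_le_one
          rw [abs_le]; constructor <;> linarith
      _ = 1 := one_mul _
  have cX : |c * (γ * (1 - α ^ 2) * X)| ≤ (c ^ 2 + X ^ 2) / 2 := by
    have h1 : |c * X| ≤ (c ^ 2 + X ^ 2) / 2 := by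
      rw [abs_le]; constructor <;> nlinarith [sq_nonneg (c + X), sq_nonneg (c - X)]
    calc |c * (γ * (1 - α ^ 2) * X)| = |γ * (1 - α ^ 2)| * |c * X| := by
          rw [← abs_mul]; ring_nf
      _ ≤ 1 * |c * X| := mul_le_mul_of_nonneg_right hg' (abs_nonneg _)
      _ ≤ (c ^ 2 + X ^ 2) / 2 := by linarith
  have cY : |c * (α * (1 - γ ^ 2) * Y)| ≤ (c ^ 2 + Y ^ 2) / 2 := by
    have h1 : |c * Y| ≤ (c ^ 2 + Y ^ 2) / 2 := by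
      rw [abs_le]; constructor <;> nlinarith [sq_nonneg (c + Y), sq_nonneg (c - Y)]
    calc |c * (α * (1 - γ ^ 2) * Y)| = |α * (1 - γ ^ 2)| * |c * Y| := by
          rw [← abs_mul]; ring_nf
      _ ≤ 1 * |c * Y| := mul_le_mul_of_nonneg_right ha' (abs_nonneg _)
      _ ≤ (c ^ 2 + Y ^ 2) / 2 := by linarith
  have hR1 : |R| ≤ 6 / 10 * θ * (X ^ 2 + Y ^ 2) + θ ^ 2 * c ^ 2 := by
    have p1 : |- τ * (1 - α * γ * τ) * (X * Y)| ≤ θ * (21 / 20) * ((X ^ 2 + Y ^ 2) / 2) := by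
      rw [abs_mul, abs_mul, abs_neg, hτ]
      apply mul_le_mul _ hXY (abs_nonneg _) (by positivity)
      apply mul_le_mul_of_nonneg_left _ hθ0
      rw [abs_le]; constructor <;> linarith [hu'.1, hu'.2]
    have p2 : |τ ^ 2 * c * (γ * (1 - α ^ 2) * X + α * (1 - γ ^ 2) * Y)|
        ≤ θ ^ 2 * ((c ^ 2 + X ^ 2) / 2 + (c ^ 2 + Y ^ 2) / 2) := by
      have e : τ ^ 2 * c * (γ * (1 - α ^ 2) * X + α * (1 - γ ^ 2) * Y)
          = τ ^ 2 * (c * (γ * (1 - α ^ 2) * X) + c * (α * (1 - γ ^ 2) * Y)) := by ring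
      rw [e, abs_mul, abs_of_nonneg (sq_nonneg τ), hτ2]
      apply mul_le_mul_of_nonneg_left _ hT2
      exact le_trans (abs_add_le _ _) (add_le_add cX cY)
    have p3 := abs_add_le (- τ * (1 - α * γ * τ) * (X * Y))
      (τ ^ 2 * c * (γ * (1 - α ^ 2) * X + α * (1 - γ ^ 2) * Y))
    rw [hR]
    have p4 : θ ^ 2 * (X ^ 2 + Y ^ 2) ≤ 1 / 20 * θ * (X ^ 2 + Y ^ 2) :=
      mul_le_mul_of_nonneg_right hθ2 (by positivity)
    have p5 : θ ^ 2 * ((c ^ 2 + X ^ 2) / 2 + (c ^ 2 + Y ^ 2) / 2)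
        = θ ^ 2 * c ^ 2 + θ ^ 2 * (X ^ 2 + Y ^ 2) / 2 := by ring
    have p6 : θ * (21 / 20) * ((X ^ 2 + Y ^ 2) / 2) = 21 / 40 * (θ * (X ^ 2 + Y ^ 2)) := by ring
    have p7 : 0 ≤ θ * (X ^ 2 + Y ^ 2) := by positivity
    linarith
  have hR2 := (abs_le.mp hR1).1
  -- division
  have eM : (1 + α * γ * τ - τ ^ 2 * (α ^ 2 + γ ^ 2 - α ^ 2 * γ ^ 2) - α * γ * τ ^ 3) * c ^ 2
        - τ * (1 - α * γ * τ) * (X * Y)
        + τ ^ 2 * c * (γ * (1 - α ^ 2) * X + α * (1 - γ ^ 2) * Y) = K * c ^ 2 + R := by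
    rw [hK, hR]; ring
  have eD : (1 - α ^ 2 * τ ^ 2) * (1 - γ ^ 2 * τ ^ 2) = D := by rw [hD, ha, hg]
  rw [eM, eD]
  have hdiv : K * c ^ 2 + R - 3 * θ ^ 2 * (6 / 10 * θ * (X ^ 2 + Y ^ 2) + θ ^ 2 * c ^ 2)
      ≤ (K * c ^ 2 + R) / D := by
    rw [le_div_iff₀ hDpos]
    obtain ⟨B, hB⟩ : ∃ B, B = 6 / 10 * θ * (X ^ 2 + Y ^ 2) + θ ^ 2 * c ^ 2 := ⟨_, rfl⟩
    rw [← hB] at hR2 ⊢
    have hB0 : 0 ≤ B := by rw [hB]; positivity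
    have hKc : 0 ≤ K * c ^ 2 := by positivity
    obtain ⟨η, hη⟩ : ∃ η, η = 1 - D := ⟨_, rfl⟩
    have hη0 : 0 ≤ η := by rw [hη]; linarith
    have hη1 : η ≤ 2 * θ ^ 2 := by rw [hη]; linarith
    have eD' : D = 1 - η := by rw [hη]; ring
    rw [eD']
    have h1 : -(2 * θ ^ 2 * B) ≤ η * (K * c ^ 2 + R) := by
      have : η * (-B) ≤ η * (K * c ^ 2 + R) :=
        mul_le_mul_of_nonneg_left (by linarith) hη0
      have h2 : η * B ≤ 2 * θ ^ 2 * B := mul_le_mul_of_nonneg_right hη1 hB0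
      linarith
    have h3 : 3 * θ ^ 2 * B * η ≤ θ ^ 2 * B := by
      have hθs : 3 * η ≤ 1 := by
        have : θ ^ 2 ≤ 1 / 400 := by nlinarith
        linarith
      have hTB : 0 ≤ θ ^ 2 * B := by positivity
      calc 3 * θ ^ 2 * B * η = (θ ^ 2 * B) * (3 * η) := by ring
        _ ≤ (θ ^ 2 * B) * 1 := mul_le_mul_of_nonneg_left hθs hTB
        _ = θ ^ 2 * B := mul_one _
    have e : (K * c ^ 2 + R - 3 * θ ^ 2 * B) * (1 - η)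
        = K * c ^ 2 + R - η * (K * c ^ 2 + R) - 3 * θ ^ 2 * B + 3 * θ ^ 2 * B * η := by ring
    rw [e]
    linarith
  refine le_trans ?_ hdiv
  have eK : K * c ^ 2 + R - (-τ * (X * Y * (1 - 3 * (α * γ * τ)) - c * X * γ * τ * (1 - α ^ 2)
        - c * Y * α * τ * (1 - γ ^ 2) + c ^ 2 * τ * (1 - α ^ 2) * (1 - γ ^ 2))
      - 2 * τ ^ 2 * (α * γ) * (X * Y)
      + (1 / 2 + 3 * θ) * c ^ 2
      - 3 * θ ^ 3 * (X ^ 2 + c ^ 2 * (1 - γ ^ 2) + (Y ^ 2 + c ^ 2 * (1 - α ^ 2))))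
      = (K - 1 / 2 - 3 * θ) * c ^ 2
        + τ ^ 2 * c ^ 2 * ((1 - α ^ 2) * (1 - γ ^ 2))
        + 3 * (θ ^ 3 * (X ^ 2 + Y ^ 2)) + 3 * θ ^ 3 * c ^ 2 * ((1 - γ ^ 2) + (1 - α ^ 2)) := by
    rw [hR]; ring
  have z2 : 0 ≤ τ ^ 2 * c ^ 2 * ((1 - α ^ 2) * (1 - γ ^ 2)) := by
    have y1 : 0 ≤ 1 - α ^ 2 := sub_nonneg.2 hα2
    have y2 : 0 ≤ 1 - γ ^ 2 := sub_nonneg.2 hγ2
    positivity
  have z3 : 0 ≤ 3 * θ ^ 3 * c ^ 2 * ((1 - γ ^ 2) + (1 - α ^ 2)) := by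
    have y1 : 0 ≤ 1 - α ^ 2 := sub_nonneg.2 hα2
    have y2 : 0 ≤ 1 - γ ^ 2 := sub_nonneg.2 hγ2
    positivity
  have z4 : (1 / 4 : ℝ) * c ^ 2 ≤ (K - 1 / 2 - 3 * θ) * c ^ 2 :=
    mul_le_mul_of_nonneg_right (by linarith) (sq_nonneg c)
  have z5 : 3 * θ ^ 2 * (6 / 10 * θ * (X ^ 2 + Y ^ 2) + θ ^ 2 * c ^ 2)
      = 18 / 10 * (θ ^ 3 * (X ^ 2 + Y ^ 2)) + 3 * (θ ^ 4 * c ^ 2) := by ring
  have z6 : 0 ≤ θ ^ 3 * (X ^ 2 + Y ^ 2) := by positivity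
  have z7 : θ ^ 4 * c ^ 2 ≤ 1 / 20 * c ^ 2 := by
    apply mul_le_mul_of_nonneg_right _ (sq_nonneg c)
    have : θ ^ 4 ≤ 1 / 20 * θ ^ 3 := by
      have := mul_le_mul_of_nonneg_left hθ hT3
      calc θ ^ 4 = θ ^ 3 * θ := by ring
        _ ≤ θ ^ 3 * (1 / 20) := this
        _ = 1 / 20 * θ ^ 3 := by ring
    nlinarith
  rw [z5]
  linarith [sq_nonneg c]

/-- rational form of the upper bound on the left hand side -/
theorem KTwo_sum {α γ τ J c1 c2 c θ : ℝ} (hα : |α| ≤ 1) (hγ : |γ| ≤ 1) (hτ : |τ| = θ)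
    (hθ : θ ≤ 1 / 20) (hJ : |J - τ| ≤ θ ^ 3) (hJ2 : θ ≤ |J|) :
    S4 (fun x y => (1 + α * x) * (1 + γ * y) *
      ((1 - τ ^ 2) * (1 + τ * x * y) * (1 / (1 + α * τ * y)) ^ 2 * (1 / (1 + γ * τ * x)) ^ 2 *
      (-J * (c1 + c * y) * (c2 + c * x) - 2 * J ^ 2 *
        (((α + τ * y) / (1 + α * τ * y)) *
        ((γ + τ * x) / (1 + γ * τ * x))) * ((c1 + c * y) * (c2 + c * x)) + c ^ 2 / 2 -
        40 * |J| ^ 3 * ((c1 + c * y) ^ 2 + (c2 + c * x) ^ 2))))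
    ≤ S4 (fun x y => x * y * (1 - τ * x * y) * (c1 + c * y) * (c2 + c * x) /
        ((1 + α * τ * y) * (1 + γ * τ * x))) := by
  have hα' := abs_le.mp hα
  have hγ' := abs_le.mp hγ
  have hθ0 : 0 ≤ θ := by rw [← hτ]; exact abs_nonneg _
  have h1 : S4 (fun x y => (1 + α * x) * (1 + γ * y) *
      ((1 - τ ^ 2) * (1 + τ * x * y) * (1 / (1 + α * τ * y)) ^ 2 * (1 / (1 + γ * τ * x)) ^ 2 *
      (-J * (c1 + c * y) * (c2 + c * x) - 2 * J ^ 2 *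
        (((α + τ * y) / (1 + α * τ * y)) *
        ((γ + τ * x) / (1 + γ * τ * x))) * ((c1 + c * y) * (c2 + c * x)) + c ^ 2 / 2 -
        40 * |J| ^ 3 * ((c1 + c * y) ^ 2 + (c2 + c * x) ^ 2))))
      ≤ S4 (fun x y => (1 + α * x) * (1 + γ * y) *
        (-τ * (1 + τ * x * y - 2 * (α * τ * y) - 2 * (γ * τ * x)) * ((c1 + c * y) * (c2 + c * x))
      - 2 * τ ^ 2 * (α * γ) * ((c1 + c * y) * (c2 + c * x)) + (1 / 2 + 3 * θ) * c ^ 2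
      - 3 * θ ^ 3 * ((c1 + c * y) ^ 2 + (c2 + c * x) ^ 2))) := by
    have key : ∀ x y : ℝ, |x| = 1 → |y| = 1 → 0 ≤ (1 + α * x) * (1 + γ * y) := by
      intro x y hx hy
      have a1 : |α * x| ≤ 1 := by rw [abs_mul, hx, mul_one]; exact hα
      have a2 : |γ * y| ≤ 1 := by rw [abs_mul, hy, mul_one]; exact hγ
      exact mul_nonneg (by linarith [(abs_le.mp a1).1]) (by linarith [(abs_le.mp a2).1])
    have n1 : |(1 : ℝ)| = 1 := abs_one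
    have n2 : |(-1 : ℝ)| = 1 := by rw [abs_neg, abs_one]
    unfold S4
    have p1 := mul_le_mul_of_nonneg_left (KTwo_point (P := c1 + c * 1) (Q := c2 + c * 1) (c := c)
      hα hγ hτ hθ hJ hJ2 n1 n1) (key 1 1 n1 n1)
    have p2 := mul_le_mul_of_nonneg_left (KTwo_point (P := c1 + c * (-1)) (Q := c2 + c * 1) (c := c)
      hα hγ hτ hθ hJ hJ2 n1 n2) (key 1 (-1) n1 n2)
    have p3 := mul_le_mul_of_nonneg_left (KTwo_point (P := c1 + c * 1) (Q := c2 + c * (-1)) (c := c)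
      hα hγ hτ hθ hJ hJ2 n2 n1) (key (-1) 1 n2 n1)
    have p4 := mul_le_mul_of_nonneg_left (KTwo_point (P := c1 + c * (-1)) (Q := c2 + c * (-1))
      (c := c) hα hγ hτ hθ hJ hJ2 n2 n2) (key (-1) (-1) n2 n2)
    exact add_le_add (add_le_add (add_le_add p1 p2) p3) p4
  refine le_trans h1 ?_
  have h2 := KTwo_fin (X := c1 + γ * c) (Y := c2 + α * c) (c := c) hα hγ hτ hθ
  have e1 : S4 (fun x y => (1 + α * x) * (1 + γ * y) *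
        (-τ * (1 + τ * x * y - 2 * (α * τ * y) - 2 * (γ * τ * x)) * ((c1 + c * y) * (c2 + c * x))
      - 2 * τ ^ 2 * (α * γ) * ((c1 + c * y) * (c2 + c * x)) + (1 / 2 + 3 * θ) * c ^ 2
      - 3 * θ ^ 3 * ((c1 + c * y) ^ 2 + (c2 + c * x) ^ 2)))
      = 4 * (-τ * ((c1 + γ * c) * (c2 + α * c) * (1 - 3 * (α * γ * τ))
        - c * (c1 + γ * c) * γ * τ * (1 - α ^ 2)
        - c * (c2 + α * c) * α * τ * (1 - γ ^ 2) + c ^ 2 * τ * (1 - α ^ 2) * (1 - γ ^ 2))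
      - 2 * τ ^ 2 * (α * γ) * ((c1 + γ * c) * (c2 + α * c))
      + (1 / 2 + 3 * θ) * c ^ 2
      - 3 * θ ^ 3 * ((c1 + γ * c) ^ 2 + c ^ 2 * (1 - γ ^ 2)
        + ((c2 + α * c) ^ 2 + c ^ 2 * (1 - α ^ 2)))) := by
    unfold S4; ring
  have hu : |α * τ| ≤ 1 / 20 := by
    rw [abs_mul, hτ]
    calc |α| * θ ≤ 1 * θ := mul_le_mul_of_nonneg_right hα hθ0
      _ ≤ 1 / 20 := by linarith
  have hv : |γ * τ| ≤ 1 / 20 := by
    rw [abs_mul, hτ]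
    calc |γ| * θ ≤ 1 * θ := mul_le_mul_of_nonneg_right hγ hθ0
      _ ≤ 1 / 20 := by linarith
  have hu' := abs_le.mp hu
  have hv' := abs_le.mp hv
  have d1 : 1 + α * τ * 1 ≠ 0 := by intro h; linarith [hu'.1]
  have d2 : 1 + α * τ * (-1) ≠ 0 := by intro h; linarith [hu'.2]
  have d3 : 1 + γ * τ * 1 ≠ 0 := by intro h; linarith [hv'.1]
  have d4 : 1 + γ * τ * (-1) ≠ 0 := by intro h; linarith [hv'.2]
  have d5 : (1 - α ^ 2 * τ ^ 2) = (1 + α * τ * 1) * (1 + α * τ * (-1)) := by ring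
  have d6 : (1 - γ ^ 2 * τ ^ 2) = (1 + γ * τ * 1) * (1 + γ * τ * (-1)) := by ring
  have e2 : S4 (fun x y => x * y * (1 - τ * x * y) * (c1 + c * y) * (c2 + c * x) /
        ((1 + α * τ * y) * (1 + γ * τ * x)))
      = 4 * (((1 + α * γ * τ - τ ^ 2 * (α ^ 2 + γ ^ 2 - α ^ 2 * γ ^ 2) - α * γ * τ ^ 3) * c ^ 2
        - τ * (1 - α * γ * τ) * ((c1 + γ * c) * (c2 + α * c))
        + τ ^ 2 * c * (γ * (1 - α ^ 2) * (c1 + γ * c) + α * (1 - γ ^ 2) * (c2 + α * c)))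
      / ((1 - α ^ 2 * τ ^ 2) * (1 - γ ^ 2 * τ ^ 2))) := by
    rw [d5, d6]
    unfold S4
    obtain ⟨A, hA⟩ : ∃ A, A = 1 + α * τ * 1 := ⟨_, rfl⟩
    obtain ⟨B, hB⟩ : ∃ B, B = 1 + α * τ * (-1) := ⟨_, rfl⟩
    obtain ⟨C, hC⟩ : ∃ C, C = 1 + γ * τ * 1 := ⟨_, rfl⟩
    obtain ⟨D, hD⟩ : ∃ D, D = 1 + γ * τ * (-1) := ⟨_, rfl⟩
    simp only [← hA, ← hB, ← hC, ← hD]
    rw [← hA] at d1
    rw [← hB] at d2
    rw [← hC] at d3
    rw [← hD] at d4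
    field_simp
    rw [hA, hB, hC, hD]
    ring
  rw [e1, e2]
  linarith

/-- **Two spin inequality.** For the two spin measure with weight `exp (J x y + a x + b y)`,
`t₁ = tanh (a + J y)`, `t₂ = tanh (b + J x)`, `ψ₁ = c1 + c y`, `ψ₂ = c2 + c x`:
the expectation of `(x - t₁)ψ₁ (y - t₂)ψ₂` is bounded below. -/
theorem two_spin_K (a b J c1 c2 c : ℝ) (hJ : |J| ≤ 1 / 20) :
    S4 (fun x y => exp (J * x * y + a * x + b * y) *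
      (-J * ((1 - tanh (a + J * y) ^ 2) * (c1 + c * y)) * ((1 - tanh (b + J * x) ^ 2) * (c2 + c * x))
       - 2 * J ^ 2 * ((1 - tanh (a + J * y) ^ 2) * (1 - tanh (b + J * x) ^ 2)) *
          (tanh (a + J * y) * tanh (b + J * x) * ((c1 + c * y) * (c2 + c * x)))
       + 1 / 2 * c ^ 2 * ((1 - tanh (a + J * y) ^ 2) * (1 - tanh (b + J * x) ^ 2))
       - 40 * |J| ^ 3 * ((1 - tanh (a + J * y) ^ 2) * (1 - tanh (b + J * x) ^ 2)) *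
          ((c1 + c * y) ^ 2 + (c2 + c * x) ^ 2)))
    ≤ S4 (fun x y => exp (J * x * y + a * x + b * y) *
      (((x - tanh (a + J * y)) * (c1 + c * y)) * ((y - tanh (b + J * x)) * (c2 + c * x)))) := by
  obtain ⟨α, hα⟩ : ∃ α, α = tanh a := ⟨_, rfl⟩
  obtain ⟨γ, hγ⟩ : ∃ γ, γ = tanh b := ⟨_, rfl⟩
  obtain ⟨τ, hτ⟩ : ∃ τ, τ = tanh J := ⟨_, rfl⟩
  have hα1 : |α| < 1 := by rw [hα]; exact Real.abs_tanh_lt_one a
  have hγ1 : |γ| < 1 := by rw [hγ]; exact Real.abs_tanh_lt_one b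
  obtain ⟨t1, t2⟩ := tanh_small hJ
  rw [← hτ] at t1 t2
  have hθ : |τ| ≤ 1 / 20 := le_trans t1 hJ
  have hτ0 : 0 ≤ |τ| := abs_nonneg _
  have hu : ∀ z y : ℝ, |z| < 1 → (y = 1 ∨ y = -1) → 1 + z * τ * y ≠ 0 := by
    intro z y hz hy h
    have hy1 : |y| = 1 := by rcases hy with h | h <;> rw [h] <;> simp
    have : |z * τ * y| ≤ 1 / 20 := by
      rw [abs_mul, abs_mul, hy1, mul_one]
      calc |z| * |τ| ≤ 1 * |τ| := mul_le_mul_of_nonneg_right hz.le hτ0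
        _ ≤ 1 / 20 := by linarith
    linarith [(abs_le.mp this).1]
  obtain ⟨k, hk⟩ : ∃ k, k = cosh J * cosh a * cosh b * ((1 - α ^ 2) * (1 - γ ^ 2) * (1 - τ ^ 2)) :=
    ⟨_, rfl⟩
  have hk0 : 0 ≤ k := by
    rw [hk]
    have g1 : 0 ≤ 1 - α ^ 2 := by
      rw [sub_nonneg, sq_le_one_iff_abs_le_one]; exact hα1.le
    have g2 : 0 ≤ 1 - γ ^ 2 := by
      rw [sub_nonneg, sq_le_one_iff_abs_le_one]; exact hγ1.le
    have g3 : 0 ≤ 1 - τ ^ 2 := by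
      rw [sub_nonneg, sq_le_one_iff_abs_le_one]; linarith
    have h1 := Real.cosh_pos J
    have h2 := Real.cosh_pos a
    have h3 := Real.cosh_pos b
    positivity
  have hexp : ∀ x y : ℝ, (x = 1 ∨ x = -1) → (y = 1 ∨ y = -1) →
      exp (J * x * y + a * x + b * y) = cosh J * cosh a * cosh b *
        ((1 + τ * x * y) * (1 + α * x) * (1 + γ * y)) := by
    intro x y hx hy
    have hxy : x * y = 1 ∨ x * y = -1 := by
      rcases hx with h | h <;> rcases hy with h' | h' <;> rw [h, h'] <;> norm_num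
    rw [Real.exp_add, Real.exp_add, mul_assoc J x y, exp_pm J hxy, exp_pm a hx, exp_pm b hy,
      ← hα, ← hγ, ← hτ]
    ring
  have hL : S4 (fun x y => exp (J * x * y + a * x + b * y) *
      (-J * ((1 - tanh (a + J * y) ^ 2) * (c1 + c * y)) * ((1 - tanh (b + J * x) ^ 2) * (c2 + c * x))
       - 2 * J ^ 2 * ((1 - tanh (a + J * y) ^ 2) * (1 - tanh (b + J * x) ^ 2)) *
          (tanh (a + J * y) * tanh (b + J * x) * ((c1 + c * y) * (c2 + c * x)))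
       + 1 / 2 * c ^ 2 * ((1 - tanh (a + J * y) ^ 2) * (1 - tanh (b + J * x) ^ 2))
       - 40 * |J| ^ 3 * ((1 - tanh (a + J * y) ^ 2) * (1 - tanh (b + J * x) ^ 2)) *
          ((c1 + c * y) ^ 2 + (c2 + c * x) ^ 2)))
      = k * S4 (fun x y => (1 + α * x) * (1 + γ * y) *
      ((1 - τ ^ 2) * (1 + τ * x * y) * (1 / (1 + α * τ * y)) ^ 2 * (1 / (1 + γ * τ * x)) ^ 2 *
      (-J * (c1 + c * y) * (c2 + c * x) - 2 * J ^ 2 *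
        (((α + τ * y) / (1 + α * τ * y)) *
        ((γ + τ * x) / (1 + γ * τ * x))) * ((c1 + c * y) * (c2 + c * x)) + c ^ 2 / 2 -
        40 * |J| ^ 3 * ((c1 + c * y) ^ 2 + (c2 + c * x) ^ 2)))) := by
    rw [← S4_mul]
    apply S4_congr
    intro x y hx hy
    rw [hexp x y hx hy, tanh_pm a J hy, tanh_pm b J hx, ← hα, ← hγ, ← hτ,
      s_form hy (hu α y hα1 hy), s_form hx (hu γ x hγ1 hx), hk]
    obtain ⟨E1, hE1⟩ : ∃ E, E = 1 / (1 + α * τ * y) := ⟨_, rfl⟩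
    obtain ⟨E2, hE2⟩ : ∃ E, E = 1 / (1 + γ * τ * x) := ⟨_, rfl⟩
    obtain ⟨T1, hT1⟩ : ∃ T, T = (α + τ * y) / (1 + α * τ * y) := ⟨_, rfl⟩
    obtain ⟨T2, hT2⟩ : ∃ T, T = (γ + τ * x) / (1 + γ * τ * x) := ⟨_, rfl⟩
    rw [← hE1, ← hE2, ← hT1, ← hT2]
    ring
  have hR : S4 (fun x y => exp (J * x * y + a * x + b * y) *
      (((x - tanh (a + J * y)) * (c1 + c * y)) * ((y - tanh (b + J * x)) * (c2 + c * x))))
      = k * S4 (fun x y => x * y * (1 - τ * x * y) * (c1 + c * y) * (c2 + c * x) /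
        ((1 + α * τ * y) * (1 + γ * τ * x))) := by
    rw [← S4_mul]
    apply S4_congr
    intro x y hx hy
    have n1 := hu α y hα1 hy
    have n2 := hu γ x hγ1 hx
    have hyx : 1 - γ * 0 = (1 : ℝ) := by ring
    rw [hexp x y hx hy, tanh_pm a J hy, tanh_pm b J hx, ← hα, ← hγ, ← hτ,
      d_form hx n1, d_form hy n2, hk]
    have hx2 : x ^ 2 = 1 := by rcases hx with h | h <;> rw [h] <;> norm_num
    have hy2 : y ^ 2 = 1 := by rcases hy with h | h <;> rw [h] <;> norm_num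
    have i1 : (1 + α * x) * (x - α) = x * (1 - α ^ 2) := by
      linear_combination α * hx2
    have i2 : (1 + γ * y) * (y - γ) = y * (1 - γ ^ 2) := by
      linear_combination γ * hy2
    have i3 : (1 + τ * x * y) * (1 - τ * y * x) = 1 - τ ^ 2 := by
      have : (1 + τ * x * y) * (1 - τ * y * x) = 1 - τ ^ 2 * (x ^ 2 * y ^ 2) := by ring
      rw [this, hx2, hy2]; ring
    obtain ⟨A, hA⟩ : ∃ A, A = 1 + α * τ * y := ⟨_, rfl⟩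
    obtain ⟨B, hB⟩ : ∃ B, B = 1 + γ * τ * x := ⟨_, rfl⟩
    rw [← hA] at n1
    rw [← hB] at n2
    rw [← hA, ← hB]
    have e1 : cosh J * cosh a * cosh b * ((1 + τ * x * y) * (1 + α * x) * (1 + γ * y)) *
        ((x - α) * (1 - τ * x * y) / A * (c1 + c * y) *
          ((y - γ) * (1 - τ * y * x) / B * (c2 + c * x)))
        = cosh J * cosh a * cosh b * (((1 + α * x) * (x - α)) * ((1 + γ * y) * (y - γ)) *
          ((1 + τ * x * y) * (1 - τ * y * x)) * (1 - τ * x * y) * (c1 + c * y) * (c2 + c * x)) /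
          (A * B) := by
      field_simp
    rw [e1, i1, i2, i3]
    ring
  rw [hL, hR]
  exact mul_le_mul_of_nonneg_left (KTwo_sum hα1.le hγ1.le rfl hθ t2 t1) hk0

end SKG
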